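import Pool.Agent.Helper61.GA.Rr

set_option autoImplicit false

/-!
# An inequality at points where a ground state does not vanish
-/

namespace Pool.Agent.Helper61.GA

open Complex Filter Topology Set MeasureTheory
open Pool.Agent.Helper61.W Pool.Agent.Helper61.W.GS
open scoped ComplexConjugate ContDiff

variable {D : Dat} {a : ℝ}

/-- the D.form is bounded in the first variable -/
lemma B_bdd (ha : 0 < a) (f : Ts a) : ∃ C : ℝ, 0 ≤ C ∧ ∀ k : Ts a, ‖(D.form ha).B k f‖ ≤ C * ‖toL a k‖ := by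
  set K : ℝ := Real.sqrt (2 * a) * Real.exp (D.β * a) with hK
  have hK0 : 0 ≤ K := by positivity
  have hs := (summable_tm (D := D) (Ts.tf f.2).star').norm
  set S : ℝ := ∑' ρ : D.ι, ‖D.tm (star' f) ρ‖ with hS
  have hS0 : 0 ≤ S := tsum_nonneg fun ρ => norm_nonneg _
  refine ⟨K * S + |D.low a| * ‖toL a f‖, by positivity, fun k => ?_⟩
  have h1 : ∀ ρ : D.ι, ‖D.wt k f ρ‖ ≤ K * ‖toL a k‖ * ‖D.tm (star' f) ρ‖ := by
    intro ρ
    have e1 : D.wt k f ρ = LT k (D.z ρ) * D.tm (star' f) ρ := by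
      unfold Dat.wt Dat.tm
      rw [LT_star (Ts.tf f.2)]
      show _ = _ * ((D.m ρ : ℂ) * conj (LT f (-conj (D.z ρ))))
      ring
    rw [e1, norm_mul]
    have e2 := ev_bound ha (D.re_le ρ) (toL a k)
    rw [ev_toL] at e2
    exact mul_le_mul_of_nonneg_right e2 (norm_nonneg _)
  have h2 := tsum_of_norm_bounded (hs.hasSum.mul_left (K * ‖toL a k‖)) h1
  have h3 : ‖inner ℂ (toL a f) (toL a k)‖ ≤ ‖toL a f‖ * ‖toL a k‖ := norm_inner_le_norm _ _
  show ‖D.Wf k f - (D.low a : ℂ) * inner ℂ (toL a f) (toL a k)‖ ≤ _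
  refine (norm_sub_le _ _).trans ?_
  rw [norm_mul, Complex.norm_real, Real.norm_eq_abs]
  have h4 : |D.low a| * ‖inner ℂ (toL a f) (toL a k)‖ ≤ |D.low a| * (‖toL a f‖ * ‖toL a k‖) :=
    mul_le_mul_of_nonneg_left h3 (abs_nonneg _)
  have h5 : ‖D.Wf k f‖ ≤ K * ‖toL a k‖ * S := h2
  calc ‖D.Wf k f‖ + |D.low a| * ‖inner ℂ (toL a f) (toL a k)‖
      ≤ K * ‖toL a k‖ * S + |D.low a| * (‖toL a f‖ * ‖toL a k‖) := add_le_add h5 h4
    _ = _ := by ring

/-- the quotient evaluated by the D.form is analytic -/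
lemma F_diff (ha : 0 < a) (f p : Ts a) (k : ℂ → Ts a)
    (hk : ∀ w, LT p w ≠ 0 → Ao a w (k w) = f - (LT f w / LT p w) • p) {w' : ℂ} (hw' : LT p w' ≠ 0) :
    DifferentiableAt ℂ (fun w => (D.form ha).B (k w) f) w' := by
  have hf := Ts.tf f.2
  have hp := Ts.tf p.2
  set c : ℂ → ℂ := fun w => LT f w / LT p w with hc
  have hcd : DifferentiableAt ℂ c w' := (LT_differentiable hf w').div (LT_differentiable hp w') hw'
  have hck : ∀ w, LT p w ≠ 0 → c w * LT p w = LT f w := fun w hw => div_mul_cancel₀ _ hw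
  -- the value of the transform of the quotient on the diagonal
  have hdiag : LT (k w') w' = deriv c w' * LT p w' := by
    have h1 : ∀ z, (z - w') * LT (k w') z = LT f z - c w' * LT p z := by
      intro z
      rw [← LT_Ao, hk w' hw']
      have e : ((f - (LT f w' / LT p w') • p : Ts a) : ℝ → ℂ) = (f : ℝ → ℂ) + (-c w') • (p : ℝ → ℂ) := by
        funext x
        simp [sub_eq_add_neg, hc]
      rw [e, LT_add hf (TF.smul' _ hp), LT_smul]
      ring
    have h2 : HasDerivAt (fun z => (z - w') * LT (k w') z) (LT (k w') w') w' := by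
      have : HasDerivAt (fun z => (z - w') * LT (k w') z)
          (1 * LT (k w') w' + (w' - w') * deriv (LT (k w')) w') w' :=
        ((hasDerivAt_id w').sub_const w').mul ((LT_differentiable (Ts.tf (k w').2)) w').hasDerivAt
      refine this.congr_deriv ?_
      ring
    have h3 : HasDerivAt (fun z => LT f z - c w' * LT p z) (deriv (LT f) w' - c w' * deriv (LT p) w') w' :=
      ((LT_differentiable hf) w').hasDerivAt.sub (((LT_differentiable hp) w').hasDerivAt.const_mul _)
    rw [funext h1] at h2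
    have h4 := h2.unique h3
    have h5 : HasDerivAt (fun w => c w * LT p w) (deriv c w' * LT p w' + c w' * deriv (LT p) w') w' :=
      hcd.hasDerivAt.mul ((LT_differentiable hp) w').hasDerivAt
    have h6 : HasDerivAt (fun w => c w * LT p w) (deriv (LT f) w') w' := by
      refine ((LT_differentiable hf) w').hasDerivAt.congr_of_eventuallyEq ?_
      have : ∀ᶠ w in 𝓝 w', LT p w ≠ 0 := (LT_continuous hp).continuousAt.eventually_ne hw'
      filter_upwards [this] with w hw
      exact hck w hw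
    have h7 := h5.unique h6
    rw [h4, ← h7]
    ring
  have hz : LT (k w' - deriv c w' • p : Ts a) w' = 0 := by
    have e : ((k w' - deriv c w' • p : Ts a) : ℝ → ℂ) = (k w' : ℝ → ℂ) + (-deriv c w') • (p : ℝ → ℂ) := by
      funext x
      simp [sub_eq_add_neg]
    rw [e, LT_add (Ts.tf (k w').2) (TF.smul' _ hp), LT_smul, hdiag]
    ring
  obtain ⟨u, hu⟩ := exists_div ha (k w' - deriv c w' • p) hz
  obtain ⟨C, hC, hB⟩ := B_bdd (D := D) ha f
  obtain ⟨Dq, hD, hI⟩ := inv_bound_near ha w'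
  refine HasDerivAt.differentiableAt (f' := (D.form ha).B u f) ?_
  rw [hasDerivAt_iff_tendsto_slope, tendsto_iff_norm_sub_tendsto_zero]
  have hslope : Tendsto (slope c w') (𝓝[≠] w') (𝓝 (deriv c w')) :=
    hasDerivAt_iff_tendsto_slope.mp hcd.hasDerivAt
  have hlim : Tendsto (fun w => C * (Dq * (‖slope c w' w - deriv c w'‖ * ‖toL a p‖ + ‖w - w'‖ * ‖toL a u‖)))
      (𝓝[≠] w') (𝓝 0) := by
    have h1 := (tendsto_iff_norm_sub_tendsto_zero.mp hslope).mul_const (‖toL a p‖)
    have h2 : Tendsto (fun w : ℂ => ‖w - w'‖ * ‖toL a u‖) (𝓝[≠] w') (𝓝 0) := by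
      have hc : Continuous fun w : ℂ => ‖w - w'‖ * ‖toL a u‖ := by fun_prop
      have := (hc.tendsto w').mono_left (nhdsWithin_le_nhds (s := {w'}ᶜ))
      simpa using this
    have h3 := ((h1.add h2).const_mul Dq).const_mul C
    simpa using h3
  refine squeeze_zero' (Eventually.of_forall fun w => norm_nonneg _) ?_ hlim
  have hev : ∀ᶠ w in 𝓝[≠] w', LT p w ≠ 0 :=
    ((LT_continuous hp).continuousAt.eventually_ne hw').filter_mono nhdsWithin_le_nhds
  filter_upwards [hI.filter_mono nhdsWithin_le_nhds, hev, self_mem_nhdsWithin] with w hw1 hw2 hw3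
  have hne : w - w' ≠ 0 := sub_ne_zero.mpr hw3
  set v : Ts a := (w - w')⁻¹ • (k w - k w') with hv
  have e1 : slope (fun w => (D.form ha).B (k w) f) w' w = (D.form ha).B v f := by
    rw [slope_def_field, hv, (D.form ha).smul_left, sub_eq_add_neg (k w), (D.form ha).add_left, (D.form ha).neg_left]
    field_simp
    ring
  have e2 : (D.form ha).B v f - (D.form ha).B u f = (D.form ha).B (v - u) f := by
    rw [sub_eq_add_neg v, (D.form ha).add_left, (D.form ha).neg_left]
    ring
  have e3 : Ao a w (v - u) = (deriv c w' - slope c w' w) • p + (w - w') • u := by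
    have h1 : Ao a w (k w') = Ao a w' (k w') + (w' - w) • k w' := Ao_eq w w' (k w')
    have h2 : Ao a w u = Ao a w' u + (w' - w) • u := Ao_eq w w' u
    rw [Ao_sub, hv, Ao_smul, Ao_sub, hk w hw2, h1, hk w' hw', h2, hu, slope_def_field]
    apply Subtype.ext
    funext x
    show (w - w')⁻¹ * (((f : ℝ → ℂ) x - c w * (p : ℝ → ℂ) x) - (((f : ℝ → ℂ) x - c w' * (p : ℝ → ℂ) x) +
      (w' - w) * (k w' : ℝ → ℂ) x)) - (((k w' : ℝ → ℂ) x - deriv c w' * (p : ℝ → ℂ) x) + (w' - w) * (u : ℝ → ℂ) x) =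
      (deriv c w' - (c w - c w') / (w - w')) * (p : ℝ → ℂ) x + (w - w') * (u : ℝ → ℂ) x
    field_simp
    ring
  rw [e1, e2]
  refine (hB _).trans (mul_le_mul_of_nonneg_left ((hw1 _).trans (mul_le_mul_of_nonneg_left ?_ hD)) hC)
  rw [e3, map_add, map_smul, map_smul]
  refine (norm_add_le _ _).trans ?_
  rw [norm_smul, norm_smul, norm_sub_rev]

lemma star_n (ha : 0 < a) {w0 : ℂ} (hw0 : w0.re = 0) {ε : ℝ} (hε : 0 < ε) (g p : Ts a)
    (hp : ∀ z ∈ Metric.closedBall w0 ε, LT p z ≠ 0) {Q : ℝ}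
    (hQ : ∀ z ∈ Metric.closedBall w0 ε, ‖LT (Ao a w0 g) z / LT p z‖ ≤ Q) :
    ‖(D.form ha).B g (Ao a w0 g)‖ ≤ 2 / ε * (((D.form ha).bn (Ao a w0 g) + Q * (D.form ha).bn p) *
      (D.form ha).bn (Ao a w0 g)) := by
  set f : Ts a := Ao a w0 g with hf
  have h1 : ∀ w, ∃ k : Ts a, LT p w ≠ 0 → Ao a w k = f - (LT f w / LT p w) • p := by
    intro w
    by_cases hw : LT p w = 0
    · exact ⟨0, fun h => absurd hw h⟩
    · have hz : LT (f - (LT f w / LT p w) • p : Ts a) w = 0 := by
        have e : ((f - (LT f w / LT p w) • p : Ts a) : ℝ → ℂ) =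
            (f : ℝ → ℂ) + (-(LT f w / LT p w)) • (p : ℝ → ℂ) := by
          funext x
          simp [sub_eq_add_neg]
        rw [e, LT_add (Ts.tf f.2) (TF.smul' _ (Ts.tf p.2)), LT_smul]
        field_simp
        ring
      obtain ⟨k, hk⟩ := exists_div ha _ hz
      exact ⟨k, fun _ => hk⟩
  choose k hk using h1
  set H : ℂ → ℂ := fun w => (D.form ha).B (k w) f * (1 + (w - w0) ^ 2 / (ε : ℂ) ^ 2) with hH
  have hεc : (ε : ℂ) ≠ 0 := by exact_mod_cast hε.ne'
  have hd : DiffContOnCl ℂ H (Metric.ball w0 ε) := by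
    apply DifferentiableOn.diffContOnCl
    rw [closure_ball w0 hε.ne']
    intro w hw
    apply DifferentiableAt.differentiableWithinAt
    apply (F_diff (D := D) ha f p k hk (hp w hw)).mul
    fun_prop
  have hb : ∀ z ∈ frontier (Metric.ball w0 ε), ‖H z‖ ≤
      2 / ε * (((D.form ha).bn f + Q * (D.form ha).bn p) * (D.form ha).bn f) := by
    intro z hz
    rw [frontier_ball w0 hε.ne'] at hz
    have hz' := Metric.sphere_subset_closedBall hz
    have hzn : ‖z - w0‖ = ε := by simpa [dist_eq_norm] using hz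
    have e1 : ‖1 + (z - w0) ^ 2 / (ε : ℂ) ^ 2‖ = 2 * |z.re| / ε := by
      have e2 : 1 + (z - w0) ^ 2 / (ε : ℂ) ^ 2 = (z - w0) * ((2 * z.re : ℝ) : ℂ) / (ε : ℂ) ^ 2 := by
        have e3 : (z - w0) * conj (z - w0) = (ε : ℂ) ^ 2 := by
          rw [Complex.mul_conj, Complex.normSq_eq_norm_sq, hzn]
          push_cast
          rfl
        have e4 : (z - w0) + conj (z - w0) = ((2 * z.re : ℝ) : ℂ) := by
          rw [Complex.add_conj, Complex.sub_re, hw0, sub_zero]
        have e5 : (ε : ℂ) ^ 2 ≠ 0 := pow_ne_zero 2 hεc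
        rw [← e4, mul_add, e3, ← pow_two, add_div, div_self e5]
        ring
      rw [e2, norm_div, norm_mul, hzn, norm_pow, Complex.norm_real, Complex.norm_real, Real.norm_of_nonneg hε.le,
        Real.norm_eq_abs, abs_mul, abs_two]
      field_simp
    have e6 : ‖(D.form ha).B (k z) f‖ ≤ (D.form ha).bn (k z) * (D.form ha).bn f := (D.form ha).norm_le _ _
    have e7 := bn_inv (D := D) ha z (k z)
    rw [hk z (hp z hz')] at e7
    have e8 : (D.form ha).bn (f - (LT f z / LT p z) • p) ≤ (D.form ha).bn f + Q * (D.form ha).bn p := by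
      refine ((D.form ha).bn_sub _ _).trans ?_
      rw [(D.form ha).bn_smul]
      have := mul_le_mul_of_nonneg_right (hQ z hz') ((D.form ha).bn_nonneg p)
      linarith
    rw [hH]
    simp only
    rw [norm_mul, e1]
    have hbf := (D.form ha).bn_nonneg f
    calc ‖(D.form ha).B (k z) f‖ * (2 * |z.re| / ε) ≤
        ((D.form ha).bn (k z) * (D.form ha).bn f) * (2 * |z.re| / ε) :=
          mul_le_mul_of_nonneg_right e6 (by positivity)
      _ = 2 / ε * ((|z.re| * (D.form ha).bn (k z)) * (D.form ha).bn f) := by ring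
      _ ≤ 2 / ε * (((D.form ha).bn f + Q * (D.form ha).bn p) * (D.form ha).bn f) := by
          apply mul_le_mul_of_nonneg_left _ (by positivity)
          exact mul_le_mul_of_nonneg_right (e7.trans e8) hbf
  have hmax := Complex.norm_le_of_forall_mem_frontier_norm_le Metric.isBounded_ball hd hb
    (z := w0) (subset_closure (Metric.mem_ball_self hε))
  have hval : H w0 = (D.form ha).B g f := by
    have e1 : H w0 = (D.form ha).B (k w0) f := by
      rw [hH]
      simp
    rw [e1]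
    have hpw := hp w0 (Metric.mem_closedBall_self hε.le)
    have e2 : Ao a w0 (k w0) = f := by
      rw [hk w0 hpw]
      have : LT f w0 = 0 := by rw [hf, LT_Ao, sub_self, zero_mul]
      rw [this, zero_div, zero_smul, sub_zero]
    obtain ⟨C, hC, hB⟩ := B_bdd (D := D) ha f
    obtain ⟨Dq, hD, hI⟩ := inv_bound ha w0
    have e3 : ‖(D.form ha).B (k w0) f - (D.form ha).B g f‖ ≤ 0 := by
      have e4 : (D.form ha).B (k w0) f - (D.form ha).B g f = (D.form ha).B (k w0 - g) f := by
        rw [sub_eq_add_neg (k w0), (D.form ha).add_left, (D.form ha).neg_left]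
        ring
      rw [e4]
      refine (hB _).trans ?_
      have e5 := hI (k w0 - g)
      rw [Ao_sub, e2, hf, sub_self, map_zero, norm_zero, mul_zero] at e5
      have := mul_le_mul_of_nonneg_left e5 hC
      rwa [mul_zero] at this
    have := norm_le_zero_iff.mp e3
    exact sub_eq_zero.mp this
  rw [hval] at hmax
  exact hmax

/-- the inequality at points near which a ground state does not vanish -/
theorem star (ha : 0 < a) {φ : HL} (hφ : φ ∈ D.E ha) {w0 : ℂ} (hw0 : w0.re = 0) {ε : ℝ} (hε : 0 < ε)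
    (hz : ∀ z ∈ Metric.closedBall w0 ε, ev a z φ ≠ 0) (g : Ts a) :
    ‖(D.form ha).B g (Ao a w0 g)‖ ≤ 2 / ε * ((D.form ha).B (Ao a w0 g) (Ao a w0 g)).re := by
  obtain ⟨G, hG1, hG2⟩ := hφ
  set f : Ts a := Ao a w0 g with hf
  set K : ℝ := Real.sqrt (2 * a) * Real.exp (ε * a) with hK
  have hK0 : 0 ≤ K := by positivity
  obtain ⟨z1, hz1, hmin⟩ := (isCompact_closedBall w0 ε).exists_isMinOn ⟨w0, Metric.mem_closedBall_self hε.le⟩
    ((ev_cont φ).norm.continuousOn (s := Metric.closedBall w0 ε))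
  set c0 : ℝ := ‖ev a z1 φ‖ with hc0
  have hc0p : 0 < c0 := norm_pos_iff.mpr (hz z1 hz1)
  have hre : ∀ z ∈ Metric.closedBall w0 ε, |z.re| ≤ ε := by
    intro z hz
    have h1 := Complex.abs_re_le_norm (z - w0)
    rw [Complex.sub_re, hw0, sub_zero] at h1
    rw [Metric.mem_closedBall, dist_eq_norm] at hz
    exact h1.trans hz
  have hev : ∀ᶠ n in atTop, K * ‖toL a (G n) - φ‖ < c0 / 2 := by
    have h1 := (tendsto_iff_norm_sub_tendsto_zero.mp hG1).const_mul K
    rw [mul_zero] at h1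
    exact h1.eventually_lt_const (by positivity)
  have hlow : ∀ᶠ n in atTop, ∀ z ∈ Metric.closedBall w0 ε, c0 / 2 ≤ ‖LT (G n) z‖ := by
    filter_upwards [hev] with n hn z hzb
    have h1 : ‖LT (G n) z - ev a z φ‖ ≤ K * ‖toL a (G n) - φ‖ := by
      rw [← ev_toL, ← map_sub]
      exact ev_bound ha (hre z hzb) _
    have h2 : c0 ≤ ‖ev a z φ‖ := hmin hzb
    have h3 : ‖ev a z φ‖ ≤ ‖LT (G n) z‖ + ‖LT (G n) z - ev a z φ‖ := by
      have := norm_sub_le (LT (G n) z) (LT (G n) z - ev a z φ)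
      simpa using this
    linarith
  set Q : ℝ := K * ‖toL a f‖ / (c0 / 2) with hQ
  have hclaim : ∀ᶠ n in atTop, ‖(D.form ha).B g f‖ ≤ 2 / ε * (((D.form ha).bn f + Q * (D.form ha).bn (G n)) *
      (D.form ha).bn f) := by
    filter_upwards [hlow] with n hn
    have hc2 : 0 < c0 / 2 := by positivity
    apply star_n (D := D) ha hw0 hε g (G n)
    · intro z hzb
      exact norm_pos_iff.mp (hc2.trans_le (hn z hzb))
    · intro z hzb
      rw [norm_div]
      have h1 := ev_bound ha (hre z hzb) (toL a f)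
      rw [ev_toL] at h1
      exact div_le_div₀ (by positivity) h1 hc2 (hn z hzb)
  have hlim : Tendsto (fun n => 2 / ε * (((D.form ha).bn f + Q * (D.form ha).bn (G n)) * (D.form ha).bn f)) atTop
      (𝓝 (2 / ε * ((D.form ha).B f f).re)) := by
    have h1 := (((hG2.const_mul Q).const_add ((D.form ha).bn f)).mul_const ((D.form ha).bn f)).const_mul (2 / ε)
    rw [mul_zero, add_zero, ← pow_two, (D.form ha).bn_sq] at h1
    exact h1
  exact ge_of_tendsto hlim hclaim

end Pool.Agent.Helper61.GA
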