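import Pool.Agent.Helper61.GA.Se
import Pool.Agent.Helper61.GA.St

set_option autoImplicit false

/-!
# The Hilbert space of the shifted form
-/

namespace Pool.Agent.Helper61.GA

open Complex Filter Topology Set MeasureTheory
open Pool.Agent.Helper61.W Pool.Agent.Helper61.W.GS
open scoped ComplexConjugate ContDiff

variable {D : Dat} {a : ℝ}

/-- the test functions with the seminorm of the form -/
def Vs (_ : Dat) {a : ℝ} (_ : 0 < a) : Type := Ts a

noncomputable instance instSN (D : Dat) {a : ℝ} (ha : 0 < a) : SeminormedAddCommGroup (Vs D ha) :=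
  @InnerProductSpace.Core.toSeminormedAddCommGroup ℂ (Ts a) _ _ _ (D.form ha).core

noncomputable instance instIP (D : Dat) {a : ℝ} (ha : 0 < a) : InnerProductSpace ℂ (Vs D ha) :=
  @InnerProductSpace.ofCore ℂ (Ts a) _ _ _ (D.form ha).core

/-- the Hilbert space -/
abbrev HH (D : Dat) {a : ℝ} (ha : 0 < a) : Type := UniformSpace.Completion (Vs D ha)

/-- the embedding of the test functions -/
noncomputable def em (D : Dat) {a : ℝ} (ha : 0 < a) : Ts a →ₗ[ℂ] HH D ha where
  toFun f := ((show Vs D ha from f : Vs D ha) : UniformSpace.Completion (Vs D ha))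
  map_add' f g := UniformSpace.Completion.coe_add (α := Vs D ha) f g
  map_smul' c f := UniformSpace.Completion.coe_smul (X := Vs D ha) c f

lemma inner_em (ha : 0 < a) (f g : Ts a) : inner ℂ (em D ha f) (em D ha g) = (D.form ha).B g f :=
  UniformSpace.Completion.inner_coe (E := Vs D ha) f g

lemma norm_em (ha : 0 < a) (f : Ts a) : ‖em D ha f‖ = (D.form ha).bn f :=
  UniformSpace.Completion.norm_coe (E := Vs D ha) f

lemma em_dense (ha : 0 < a) : Dense (range fun f : Ts a => em D ha f) := by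
  have h := UniformSpace.Completion.denseRange_coe (α := Vs D ha)
  exact h

lemma em_eq (ha : 0 < a) {w : ℂ} {k k' : Ts a} (h : Ao a w k = Ao a w k') : em D ha k = em D ha k' := by
  obtain ⟨C, hC, hb⟩ := bn_h1 (D := D) ha w
  have h1 := hb (k - k')
  rw [Ao_sub, h, sub_self, map_zero, norm_zero, mul_zero] at h1
  rw [← sub_eq_zero, ← map_sub, ← norm_le_zero_iff, norm_em]
  exact h1

/-- the bound by the first derivative, locally uniformly -/
lemma bn_h1_near (ha : 0 < a) (w' : ℂ) : ∃ C : ℝ, 0 ≤ C ∧ ∀ᶠ w in 𝓝 w', ∀ k : Ts a,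
    (D.form ha).bn k ≤ C * ‖toL a (Ao a w k)‖ := by
  obtain ⟨C, hC, hb⟩ := bn_h1 (D := D) ha w'
  obtain ⟨C', hC', hi⟩ := inv_bound_near ha w'
  refine ⟨C * (1 + 1 * C'), by positivity, ?_⟩
  have h1 : ∀ᶠ w in 𝓝 w', ‖w - w'‖ < 1 := by
    have hc : Continuous fun w : ℂ => ‖w - w'‖ := by fun_prop
    have := hc.tendsto w'
    simp only [sub_self, norm_zero] at this
    exact this.eventually_lt_const one_pos
  filter_upwards [hi, h1] with w hw hw1 k
  have h2 := hb k
  rw [Ao_eq w' w k, map_add, map_smul] at h2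
  have h3 : ‖toL a (Ao a w k) + (w - w') • toL a k‖ ≤ ‖toL a (Ao a w k)‖ + ‖w - w'‖ * ‖toL a k‖ := by
    refine (norm_add_le _ _).trans ?_
    rw [norm_smul]
  have h4 : ‖w - w'‖ * ‖toL a k‖ ≤ 1 * (C' * ‖toL a (Ao a w k)‖) :=
    mul_le_mul hw1.le (hw k) (norm_nonneg _) zero_le_one
  refine h2.trans ((mul_le_mul_of_nonneg_left (h3.trans (add_le_add le_rfl h4)) hC).trans (le_of_eq ?_))
  ring

lemma kq_exists (ha : 0 < a) (f p : Ts a) (w : ℂ) : ∃ k : Ts a, Ao a w k = LT p w • f - LT f w • p := by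
  apply exists_div ha
  have e : ((LT p w • f - LT f w • p : Ts a) : ℝ → ℂ) =
      LT p w • (f : ℝ → ℂ) + (-LT f w) • (p : ℝ → ℂ) := by
    funext x
    simp [sub_eq_add_neg]
  rw [e, LT_add (TF.smul' _ (Ts.tf f.2)) (TF.smul' _ (Ts.tf p.2)), LT_smul, LT_smul]
  ring

/-- the quotient -/
noncomputable def kq (ha : 0 < a) (f p : Ts a) (w : ℂ) : Ts a := (kq_exists ha f p w).choose

lemma kq_spec (ha : 0 < a) (f p : Ts a) (w : ℂ) : Ao a w (kq ha f p w) = LT p w • f - LT f w • p :=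
  (kq_exists ha f p w).choose_spec

lemma LT_lin (c d : ℂ) (f g : Ts a) (z : ℂ) : LT (c • f - d • g : Ts a) z = c * LT f z - d * LT g z := by
  have e : ((c • f - d • g : Ts a) : ℝ → ℂ) = c • (f : ℝ → ℂ) + (-d) • (g : ℝ → ℂ) := by
    funext x
    simp [sub_eq_add_neg]
  rw [e, LT_add (TF.smul' _ (Ts.tf f.2)) (TF.smul' _ (Ts.tf g.2)), LT_smul, LT_smul]
  ring

/-- the quotient in the Hilbert space -/
noncomputable def Ph (D : Dat) (ha : 0 < a) (f p : Ts a) (w : ℂ) : HH D ha := em D ha (kq ha f p w)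

lemma Ph_of (ha : 0 < a) {f p k : Ts a} {w : ℂ} (h : Ao a w k = LT p w • f - LT f w • p) :
    Ph D ha f p w = em D ha k := em_eq ha ((kq_spec ha f p w).trans h.symm)

lemma Ph_sub (ha : 0 < a) (f p q : Ts a) (w : ℂ) : Ph D ha f (p - q) w = Ph D ha f p w - Ph D ha f q w := by
  unfold Ph
  rw [← map_sub]
  apply em_eq (w := w) ha
  rw [kq_spec, Ao_sub, kq_spec, kq_spec]
  have e : LT (p - q : Ts a) w = LT p w - LT q w := by
    have := LT_lin 1 1 p q w
    simpa using this
  rw [e]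
  module

lemma Ph_bound (ha : 0 < a) (f p : Ts a) (w : ℂ) :
    |w.re| * ‖Ph D ha f p w‖ ≤ ‖LT p w‖ * (D.form ha).bn f + ‖LT f w‖ * (D.form ha).bn p := by
  unfold Ph
  rw [norm_em]
  refine (bn_inv ha w _).trans ?_
  rw [kq_spec]
  refine ((D.form ha).bn_sub _ _).trans ?_
  rw [(D.form ha).bn_smul, (D.form ha).bn_smul]

lemma Ph_mul (ha : 0 < a) (f p : Ts a) (w : ℂ) :
    Ph D ha (Ao a 0 f) p w = LT p w • em D ha f + w • Ph D ha f p w := by
  have h : Ao a w (LT p w • f + w • kq ha f p w) = LT p w • Ao a 0 f - LT (Ao a 0 f) w • p := by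
    rw [Ao_add, Ao_smul, Ao_smul, kq_spec, LT_Ao, Ao_eq 0 w f]
    module
  rw [Ph_of ha h, map_add, map_smul, map_smul]
  rfl

/-- the quotient depends analytically on the point -/
lemma Ph_diff (ha : 0 < a) (f p : Ts a) : Differentiable ℂ (Ph D ha f p) := by
  intro w'
  have hf := Ts.tf f.2
  have hp := Ts.tf p.2
  set k : ℂ → Ts a := kq ha f p with hkdef
  have hk : ∀ w, Ao a w (k w) = LT p w • f - LT f w • p := fun w => kq_spec ha f p w
  set fd := deriv (LT f) w' with hfd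
  set pd := deriv (LT p) w' with hpd
  have hfh : HasDerivAt (LT f) fd w' := ((LT_differentiable hf) w').hasDerivAt
  have hph : HasDerivAt (LT p) pd w' := ((LT_differentiable hp) w').hasDerivAt
  -- the diagonal value
  have hdiag : LT (k w') w' = LT p w' * fd - LT f w' * pd := by
    have h1 : ∀ z, (z - w') * LT (k w') z = LT p w' * LT f z - LT f w' * LT p z := by
      intro z
      rw [← LT_Ao, hk w', LT_lin]
    have h2 : HasDerivAt (fun z => (z - w') * LT (k w') z) (LT (k w') w') w' := by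
      have : HasDerivAt (fun z => (z - w') * LT (k w') z)
          (1 * LT (k w') w' + (w' - w') * deriv (LT (k w')) w') w' :=
        ((hasDerivAt_id w').sub_const w').mul ((LT_differentiable (Ts.tf (k w').2)) w').hasDerivAt
      refine this.congr_deriv ?_
      ring
    have h3 : HasDerivAt (fun z => LT p w' * LT f z - LT f w' * LT p z) (LT p w' * fd - LT f w' * pd) w' :=
      (hfh.const_mul _).sub (hph.const_mul _)
    rw [funext h1] at h2
    exact h2.unique h3
  have hz : LT ((pd • f - fd • p) + k w' : Ts a) w' = 0 := by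
    have e : (((pd • f - fd • p) + k w' : Ts a) : ℝ → ℂ) = ((pd • f - fd • p : Ts a) : ℝ → ℂ) + (k w' : ℝ → ℂ) := rfl
    rw [e, LT_add (Ts.tf (pd • f - fd • p : Ts a).2) (Ts.tf (k w').2), LT_lin, hdiag]
    ring
  obtain ⟨u, hu⟩ := exists_div ha _ hz
  obtain ⟨C, hC, hI⟩ := bn_h1_near (D := D) ha w'
  refine HasDerivAt.differentiableAt (f' := em D ha u) ?_
  rw [hasDerivAt_iff_tendsto_slope, tendsto_iff_norm_sub_tendsto_zero]
  have hs1 := tendsto_iff_norm_sub_tendsto_zero.mp (hasDerivAt_iff_tendsto_slope.mp hfh)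
  have hs2 := tendsto_iff_norm_sub_tendsto_zero.mp (hasDerivAt_iff_tendsto_slope.mp hph)
  have hlim : Tendsto (fun w => C * (‖slope (LT p) w' w - pd‖ * ‖toL a f‖ + ‖slope (LT f) w' w - fd‖ * ‖toL a p‖ +
      ‖w - w'‖ * ‖toL a u‖)) (𝓝[≠] w') (𝓝 0) := by
    have h2 : Tendsto (fun w : ℂ => ‖w - w'‖ * ‖toL a u‖) (𝓝[≠] w') (𝓝 0) := by
      have hc : Continuous fun w : ℂ => ‖w - w'‖ * ‖toL a u‖ := by fun_prop
      have := (hc.tendsto w').mono_left (nhdsWithin_le_nhds (s := {w'}ᶜ))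
      simpa using this
    have h3 := (((hs2.mul_const (‖toL a f‖)).add (hs1.mul_const (‖toL a p‖))).add h2).const_mul C
    simpa using h3
  refine squeeze_zero' (Eventually.of_forall fun w => norm_nonneg _) ?_ hlim
  filter_upwards [hI.filter_mono nhdsWithin_le_nhds, self_mem_nhdsWithin] with w hw1 hw3
  have hne : w - w' ≠ 0 := sub_ne_zero.mpr hw3
  set v : Ts a := (w - w')⁻¹ • (k w - k w') with hv
  have e1 : slope (Ph D ha f p) w' w = em D ha v := by
    rw [slope_def_module, hv, map_smul, map_sub]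
    rfl
  have e3 : Ao a w (v - u) = ((slope (LT p) w' w - pd) • f - (slope (LT f) w' w - fd) • p) + (w - w') • u := by
    have h1 : Ao a w (k w') = Ao a w' (k w') + (w' - w) • k w' := Ao_eq w w' (k w')
    have h2 : Ao a w u = Ao a w' u + (w' - w) • u := Ao_eq w w' u
    rw [Ao_sub, hv, Ao_smul, Ao_sub, hk w, h1, hk w', h2, hu, slope_def_field, slope_def_field]
    apply Subtype.ext
    funext x
    show (w - w')⁻¹ * ((LT p w * (f : ℝ → ℂ) x - LT f w * (p : ℝ → ℂ) x) -
      ((LT p w' * (f : ℝ → ℂ) x - LT f w' * (p : ℝ → ℂ) x) + (w' - w) * (k w' : ℝ → ℂ) x)) -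
      (((pd * (f : ℝ → ℂ) x - fd * (p : ℝ → ℂ) x) + (k w' : ℝ → ℂ) x) + (w' - w) * (u : ℝ → ℂ) x) =
      (((LT p w - LT p w') / (w - w') - pd) * (f : ℝ → ℂ) x -
        ((LT f w - LT f w') / (w - w') - fd) * (p : ℝ → ℂ) x) + (w - w') * (u : ℝ → ℂ) x
    field_simp
    ring
  rw [e1, ← map_sub, norm_em]
  refine (hw1 _).trans (mul_le_mul_of_nonneg_left ?_ hC)
  rw [e3, map_add, map_sub, map_smul, map_smul, map_smul]
  refine (norm_add_le _ _).trans (add_le_add ((norm_sub_le _ _).trans (le_of_eq ?_)) (le_of_eq ?_))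
  · rw [norm_smul, norm_smul]
  · rw [norm_smul]

/-- the bound in vertical strips -/
lemma Ph_strip (ha : 0 < a) (f p : Ts a) {R : ℝ} (hR : 0 < R) {w : ℂ} (hw : |w.re| < R) :
    ‖Ph D ha f p w‖ ≤ 2 / R * (Real.sqrt (2 * a) * Real.exp (R * a) * ‖toL a p‖ * (D.form ha).bn f +
      Real.sqrt (2 * a) * Real.exp (R * a) * ‖toL a f‖ * (D.form ha).bn p) := by
  set w0 : ℂ := w.im * I with hw0
  have hw0re : w0.re = 0 := by simp [hw0]
  have hsub : w - w0 = (w.re : ℂ) := by
    apply Complex.ext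
    · simp [hw0]
    · simp [hw0]
  have hRc : (R : ℂ) ≠ 0 := by exact_mod_cast hR.ne'
  set K : ℝ := Real.sqrt (2 * a) * Real.exp (R * a) with hK
  have hK0 : 0 ≤ K := by positivity
  set H : ℂ → HH D ha := fun u => (1 + (u - w0) ^ 2 / (R : ℂ) ^ 2) • Ph D ha f p u with hH
  have hd : DiffContOnCl ℂ H (Metric.ball w0 R) := by
    apply Differentiable.diffContOnCl
    intro u
    have h1 : DifferentiableAt ℂ (fun u : ℂ => 1 + (u - w0) ^ 2 / (R : ℂ) ^ 2) u := by fun_prop
    exact h1.smul (Ph_diff ha f p u)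
  have hb : ∀ u ∈ frontier (Metric.ball w0 R), ‖H u‖ ≤
      2 / R * (K * ‖toL a p‖ * (D.form ha).bn f + K * ‖toL a f‖ * (D.form ha).bn p) := by
    intro z hz
    rw [frontier_ball w0 hR.ne'] at hz
    have hzn : ‖z - w0‖ = R := by simpa [dist_eq_norm] using hz
    have hzre : |z.re| ≤ R := by
      have h1 := Complex.abs_re_le_norm (z - w0)
      rw [Complex.sub_re, hw0re, sub_zero, hzn] at h1
      exact h1
    have e1 : ‖1 + (z - w0) ^ 2 / (R : ℂ) ^ 2‖ = 2 * |z.re| / R := by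
      have e2 : 1 + (z - w0) ^ 2 / (R : ℂ) ^ 2 = (z - w0) * ((2 * z.re : ℝ) : ℂ) / (R : ℂ) ^ 2 := by
        have e3 : (z - w0) * conj (z - w0) = (R : ℂ) ^ 2 := by
          rw [Complex.mul_conj, Complex.normSq_eq_norm_sq, hzn]
          push_cast
          rfl
        have e4 : (z - w0) + conj (z - w0) = ((2 * z.re : ℝ) : ℂ) := by
          rw [Complex.add_conj, Complex.sub_re, hw0re, sub_zero]
        have e5 : (R : ℂ) ^ 2 ≠ 0 := pow_ne_zero 2 hRc
        rw [← e4, mul_add, e3, ← pow_two, add_div, div_self e5]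
        ring
      rw [e2, norm_div, norm_mul, hzn, norm_pow, Complex.norm_real, Complex.norm_real, Real.norm_of_nonneg hR.le,
        Real.norm_eq_abs, abs_mul, abs_two]
      field_simp
    have h1 := Ph_bound (D := D) ha f p z
    have h2 := ev_bound ha hzre (toL a p)
    have h3 := ev_bound ha hzre (toL a f)
    rw [ev_toL] at h2 h3
    simp only [hH]
    rw [norm_smul, e1]
    have hbf := (D.form ha).bn_nonneg f
    have hbp := (D.form ha).bn_nonneg p
    calc 2 * |z.re| / R * ‖Ph D ha f p z‖ = 2 / R * (|z.re| * ‖Ph D ha f p z‖) := by ring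
      _ ≤ 2 / R * (‖LT p z‖ * (D.form ha).bn f + ‖LT f z‖ * (D.form ha).bn p) :=
          mul_le_mul_of_nonneg_left h1 (by positivity)
      _ ≤ _ := by
          apply mul_le_mul_of_nonneg_left _ (by positivity)
          exact add_le_add (mul_le_mul_of_nonneg_right h2 hbf) (mul_le_mul_of_nonneg_right h3 hbp)
  have hmem : w ∈ closure (Metric.ball w0 R) := by
    apply subset_closure
    rw [Metric.mem_ball, dist_eq_norm, hsub, Complex.norm_real, Real.norm_eq_abs]
    exact hw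
  have hmax := Complex.norm_le_of_forall_mem_frontier_norm_le Metric.isBounded_ball hd hb hmem
  refine le_trans ?_ hmax
  simp only [hH]
  rw [norm_smul, hsub]
  have e6 : (1 + (w.re : ℂ) ^ 2 / (R : ℂ) ^ 2) = ((1 + w.re ^ 2 / R ^ 2 : ℝ) : ℂ) := by push_cast; rfl
  rw [e6, Complex.norm_real, Real.norm_of_nonneg (by positivity)]
  have h7 : 0 ≤ w.re ^ 2 / R ^ 2 := by positivity
  nlinarith [norm_nonneg (Ph D ha f p w)]

end Pool.Agent.Helper61.GA
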