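import Pool.Agent.Helper61.GA.Nl

set_option autoImplicit false

/-!
# If the lowest eigenvalue tends to `-∞`, the zeros of ground states fill the critical line
-/

namespace Pool.Agent.Helper61.GA

open Complex Filter Topology Set MeasureTheory
open Pool.Agent.Helper61.W Pool.Agent.Helper61.W.GS
open scoped ComplexConjugate ContDiff

variable {D : Dat} {a : ℝ}

/-- if the lowest eigenvalue tends to `-∞`, the zeros of ground states fill the critical line -/
theorem zeros_dense (hlow : Tendsto D.low atTop atBot) (s : ℂ) (hs : s.re = 0) {ε0 : ℝ} (hε0 : 0 < ε0) :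
    ∃ A : ℝ, ∀ a : ℝ, A ≤ a → ∀ (ha : 0 < a), ∀ φ ∈ D.E ha, ∃ z : ℂ, ‖z - s‖ < ε0 ∧ ev a z φ = 0 := by
  by_contra hcon
  push Not at hcon
  refine no_ineq' s hs (δ := ε0 / 8) (ε := ε0 / 2) (by positivity) (by linarith) fun b hb g => ?_
  set w0 : ℂ := s + (ε0 / 8 : ℝ) * I with hw0
  have hw0re : w0.re = 0 := by simp [hw0, hs]
  set f : Ts b := Ao b w0 g with hf
  by_contra hlt
  push Not at hlt
  set M : ℝ := ‖D.Wf g f‖ + 2 / (ε0 / 2) * |(D.Wf f f).re| with hM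
  set Dq : ℝ := ‖inner ℂ (toL b f) (toL b g)‖ - 2 / (ε0 / 2) * ‖toL b f‖ ^ 2 with hD
  have hDp : 0 < Dq := sub_pos.mpr hlt
  have hev := tendsto_atBot.mp hlow (-(M / Dq + 1))
  obtain ⟨A0, hA0⟩ := eventually_atTop.mp hev
  obtain ⟨a, haA, ha, φ, hφ, hnz⟩ := hcon (max A0 b)
  have hab : b ≤ a := (le_max_right _ _).trans haA
  have h1 := hA0 a ((le_max_left _ _).trans haA)
  set gA : Ts a := ⟨g, Ts.mono hab g.2⟩ with hgA
  have hball : ∀ z ∈ Metric.closedBall w0 (ε0 / 2), ev a z φ ≠ 0 := by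
    intro z hz
    apply hnz
    rw [Metric.mem_closedBall, dist_eq_norm] at hz
    have e1 : z - s = (z - w0) + (ε0 / 8 : ℝ) * I := by
      rw [hw0]
      ring
    rw [e1]
    refine (norm_add_le _ _).trans_lt ?_
    rw [norm_mul, Complex.norm_I, mul_one, Complex.norm_real, Real.norm_of_nonneg (by positivity)]
    linarith
  have h2 := star (D := D) ha hφ hw0re (by positivity : 0 < ε0 / 2) hball gA
  have hfA : (Ao a w0 gA : ℝ → ℂ) = (f : ℝ → ℂ) := rfl
  rw [form_self (D := D)] at h2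
  have e1 : (D.form ha).B gA (Ao a w0 gA) = D.Wf g f - (D.low a : ℂ) * inner ℂ (toL a (Ao a w0 gA)) (toL a gA) := rfl
  have e2 : ‖toL a (Ao a w0 gA)‖ ^ 2 = ‖toL b f‖ ^ 2 := by
    rw [norm_toL, norm_toL]
    rfl
  have e3 : inner ℂ (toL a (Ao a w0 gA)) (toL a gA) = inner ℂ (toL b f) (toL b g) := by
    rw [inner_toL, inner_toL]
    rfl
  rw [e1, e2, e3, hfA] at h2
  have h3 : ‖(D.low a : ℂ) * inner ℂ (toL b f) (toL b g)‖ ≤ ‖D.Wf g f‖ +
      ‖D.Wf g f - (D.low a : ℂ) * inner ℂ (toL b f) (toL b g)‖ := by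
    have := norm_sub_le (D.Wf g f) (D.Wf g f - (D.low a : ℂ) * inner ℂ (toL b f) (toL b g))
    rwa [sub_sub_cancel] at this
  rw [norm_mul, Complex.norm_real, Real.norm_eq_abs] at h3
  have hMD : 0 ≤ M / Dq := by positivity
  have hneg : D.low a < 0 := by linarith
  rw [abs_of_neg hneg] at h3
  have h4 : 2 / (ε0 / 2) * (D.Wf f f).re ≤ 2 / (ε0 / 2) * |(D.Wf f f).re| :=
    mul_le_mul_of_nonneg_left (le_abs_self _) (by positivity)
  have h5 : -D.low a * Dq ≤ M := by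
    rw [hD, hM]
    have e : 2 / (ε0 / 2) * ((D.Wf f f).re - D.low a * ‖toL b f‖ ^ 2) =
        2 / (ε0 / 2) * (D.Wf f f).re - D.low a * (2 / (ε0 / 2) * ‖toL b f‖ ^ 2) := by ring
    rw [e] at h2
    nlinarith
  have h6 : (M / Dq + 1) * Dq ≤ -D.low a * Dq := mul_le_mul_of_nonneg_right (by linarith) hDp.le
  have h7 : (M / Dq + 1) * Dq = M + Dq := by field_simp
  linarith

/-- every zero on the critical line is a limit of zeros of ground states -/
theorem critical_zeros (ρ0 : D.ι) (h0 : (D.z ρ0).re = 0) {ε0 : ℝ} (hε0 : 0 < ε0) : ∃ A : ℝ, ∀ a : ℝ, A ≤ a →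
    ∀ (ha : 0 < a), ∀ φ ∈ D.E ha, ∃ z : ℂ, ‖z - D.z ρ0‖ < ε0 ∧ ev a z φ = 0 := by
  by_cases hR : ∀ ρ : D.ι, (D.z ρ).re = 0
  · exact zeros_near (D := D) hR ρ0 hε0
  · push Not at hR
    exact zeros_dense (D := D) (low_atBot (D := D) hR) _ h0 hε0

end Pool.Agent.Helper61.GA
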