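import Pool.Agent.Helper61.GS.Gd

set_option autoImplicit false

/-!
# Weil's form for an abstract configuration of zeros
-/

namespace Pool.Agent.Helper61.GA

open Complex Filter Topology Set MeasureTheory
open scoped ComplexConjugate ContDiff
open Pool.Agent.Helper61.W Pool.Agent.Helper61.W.GS

/-- the summands -/
noncomputable def wz {ι : Type} (z : ι → ℂ) (m : ι → ℝ) (f g : ℝ → ℂ) (ρ : ι) : ℂ :=
  (m ρ : ℂ) * (LT f (z ρ) * conj (LT g (-conj (z ρ))))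

/-- a configuration of zeros with a form that is bounded below and has compact resolvent -/
structure Dat where
  ι : Type
  z : ι → ℂ
  m : ι → ℝ
  β : ℝ
  one_le : ∀ ρ, 1 ≤ m ρ
  re_le : ∀ ρ, |(z ρ).re| ≤ β
  sum : Summable fun ρ => m ρ / (1 + |(z ρ).im|) ^ (2 : ℝ)
  refl : ι ≃ ι
  z_refl : ∀ ρ, z (refl ρ) = -conj (z ρ)
  m_refl : ∀ ρ, m (refl ρ) = m ρ
  inj : Function.Injective z
  approx : ∀ a : ℝ, 0 < a → ∃ C : ℝ, 0 ≤ C ∧ ∀ (g : Ts a) (N : ℕ), ∃ Q ∈ PN a N,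
    Hn N * ‖toL a g - Q‖ ^ 2 ≤ (∑' ρ, wz z m g g ρ).re + C * ‖toL a g‖ ^ 2

variable {D : Dat} {f g h : ℝ → ℂ}

lemma Dat.m_nonneg (D : Dat) (ρ : D.ι) : 0 ≤ D.m ρ := by linarith [D.one_le ρ]

/-- the summands for one function -/
noncomputable def Dat.tm (D : Dat) (Φ : ℝ → ℂ) (ρ : D.ι) : ℂ := (D.m ρ : ℂ) * LT Φ (D.z ρ)

/-- the summands of the form -/
noncomputable def Dat.wt (D : Dat) (f g : ℝ → ℂ) (ρ : D.ι) : ℂ :=
  (D.m ρ : ℂ) * (LT f (D.z ρ) * conj (LT g (-conj (D.z ρ))))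

/-- the form -/
noncomputable def Dat.Wf (D : Dat) (f g : ℝ → ℂ) : ℂ := ∑' ρ : D.ι, D.wt f g ρ

lemma summable_tm {Φ : ℝ → ℂ} (h : TF Φ) : Summable (fun ρ : D.ι => D.tm Φ ρ) := by
  obtain ⟨C, hC, hb⟩ := LT_bound h D.β
  have h1 := D.sum.mul_left (4 * C)
  refine Summable.of_norm_bounded h1 fun ρ => ?_
  unfold Dat.tm
  have hm : 0 ≤ D.m ρ := D.m_nonneg ρ
  rw [norm_mul, Complex.norm_real, Real.norm_of_nonneg hm]
  have h2 := hb (D.z ρ) (D.re_le ρ)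
  set y := (D.z ρ).im with hy
  have h5 : (1 + |y|) ^ (2 : ℝ) = (1 + |y|) ^ 2 := by norm_cast
  rw [h5]
  have h6 : (1 + |y|) ^ 2 ≤ 4 * (1 + y ^ 2) ^ 2 := by
    have e1 : (1 + |y|) ^ 2 ≤ 2 * (1 + y ^ 2) := by
      have := sq_nonneg (1 - |y|)
      have h10 := sq_abs y
      nlinarith
    have e2 : 1 + y ^ 2 ≤ (1 + y ^ 2) ^ 2 := by nlinarith [sq_nonneg y]
    nlinarith [sq_nonneg y]
  have h7 : C / (1 + y ^ 2) ^ 2 ≤ 4 * C / (1 + |y|) ^ 2 := by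
    rw [div_le_div_iff₀ (by positivity) (by positivity)]
    nlinarith
  calc D.m ρ * ‖LT Φ (D.z ρ)‖ ≤ D.m ρ * (4 * C / (1 + |y|) ^ 2) :=
        mul_le_mul_of_nonneg_left (h2.trans h7) hm
    _ = _ := by ring

lemma wt_eq (hf : TF f) (hg : TF g) (ρ : D.ι) : D.wt f g ρ = D.tm (cc f g) ρ := by
  unfold Dat.wt Dat.tm
  rw [LT_cc hf hg]

lemma summable_wt (hf : TF f) (hg : TF g) : Summable (D.wt f g) := by
  have := summable_tm (D := D) (cc_tf hf hg)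
  refine this.congr fun ρ => ?_
  rw [wt_eq hf hg]

lemma Wf_add_left (hf : TF f) (hg : TF g) (hh : TF h) : D.Wf (f + g) h = D.Wf f h + D.Wf g h := by
  unfold Dat.Wf
  rw [← (summable_wt hf hh).tsum_add (summable_wt hg hh)]
  congr 1
  funext ρ
  unfold Dat.wt
  rw [LT_add hf hg]
  ring

lemma Wf_smul_left (c : ℂ) : D.Wf (c • f) h = c * D.Wf f h := by
  unfold Dat.Wf
  rw [← tsum_mul_left]
  congr 1
  funext ρ
  unfold Dat.wt
  rw [LT_smul]
  ring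

lemma Wf_add_right (hf : TF f) (hg : TF g) (hh : TF h) : D.Wf h (f + g) = D.Wf h f + D.Wf h g := by
  unfold Dat.Wf
  rw [← (summable_wt hh hf).tsum_add (summable_wt hh hg)]
  congr 1
  funext ρ
  unfold Dat.wt
  rw [LT_add hf hg, map_add]
  ring

lemma Wf_smul_right (c : ℂ) : D.Wf h (c • f) = conj c * D.Wf h f := by
  unfold Dat.Wf
  rw [← tsum_mul_left]
  congr 1
  funext ρ
  unfold Dat.wt
  rw [LT_smul, map_mul]
  ring

lemma Wf_symm : conj (D.Wf f g) = D.Wf g f := by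
  unfold Dat.Wf
  rw [Complex.conj_tsum, ← D.refl.tsum_eq (D.wt g f)]
  refine tsum_congr fun ρ => ?_
  unfold Dat.wt
  rw [D.z_refl, D.m_refl, map_mul, map_mul, Complex.conj_conj, Complex.conj_ofReal, map_neg, Complex.conj_conj,
    neg_neg]
  ring

lemma Wf_self_im : (D.Wf g g).im = 0 := by
  have h := congrArg Complex.im (Wf_symm (D := D) (f := g) (g := g))
  rw [Complex.conj_im] at h
  linarith

/-- the form is bounded below -/
lemma bdd_below {a : ℝ} (ha : 0 < a) : ∃ C : ℝ, 0 ≤ C ∧ ∀ g : Ts a, -(C * ‖toL a g‖ ^ 2) ≤ (D.Wf g g).re := by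
  obtain ⟨C, hC, h⟩ := D.approx a ha
  refine ⟨C, hC, fun g => ?_⟩
  obtain ⟨Q, _, hQ⟩ := h g 0
  have e : Hn 0 = 0 := by simp [Hn]
  rw [e, zero_mul] at hQ
  have e2 : ∑' ρ, wz D.z D.m g g ρ = D.Wf g g := rfl
  rw [e2] at hQ
  linarith

theorem seqcomp {a : ℝ} (ha : 0 < a) (G : ℕ → Ts a) (M : ℝ) (h1 : ∀ n, ‖toL a (G n)‖ ≤ M)
    (h2 : ∀ n, (D.Wf (G n) (G n)).re ≤ M) : ∃ φ : HL, ∃ ψ : ℕ → ℕ, StrictMono ψ ∧
      Tendsto (fun n => toL a (G (ψ n))) atTop (𝓝 φ) := by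
  obtain ⟨C, hC, h⟩ := D.approx a ha
  have hM : 0 ≤ M := (norm_nonneg _).trans (h1 0)
  have htb : TotallyBounded (range fun n => toL a (G n)) := by
    rw [Metric.totallyBounded_iff]
    intro ε hε
    obtain ⟨N, hN⟩ := (Hn_atTop.eventually_gt_atTop ((M + C * M ^ 2) / (ε / 2) ^ 2)).exists
    have hK : IsCompact ((↑) '' (Metric.closedBall (0 : PN a N) (M + ε)) : Set HL) :=
      (isCompact_closedBall (0 : PN a N) (M + ε)).image continuous_subtype_val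
    obtain ⟨t, ht1, ht2⟩ := (Metric.totallyBounded_iff.mp hK.totallyBounded) (ε / 2) (by positivity)
    refine ⟨t, ht1, ?_⟩
    rintro _ ⟨n, rfl⟩
    obtain ⟨Q, hQ, hle⟩ := h (G n) N
    have hH : 0 < Hn N := lt_of_le_of_lt (by positivity) hN
    have h3 : Hn N * ‖toL a (G n) - Q‖ ^ 2 ≤ M + C * M ^ 2 := by
      refine hle.trans (add_le_add (h2 n) ?_)
      gcongr
      exact h1 n
    have h4 : ‖toL a (G n) - Q‖ ^ 2 < (ε / 2) ^ 2 := by
      rw [div_lt_iff₀ (by positivity)] at hN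
      nlinarith
    have h5 : ‖toL a (G n) - Q‖ < ε / 2 := lt_of_pow_lt_pow_left₀ 2 (by positivity) h4
    have h6 : ‖Q‖ ≤ M + ε := by
      have : ‖Q‖ ≤ ‖toL a (G n)‖ + ‖toL a (G n) - Q‖ := by
        have e : Q = toL a (G n) - (toL a (G n) - Q) := by abel
        conv_lhs => rw [e]
        exact norm_sub_le _ _
      linarith [h1 n]
    have h7 : Q ∈ ((↑) '' (Metric.closedBall (0 : PN a N) (M + ε)) : Set HL) :=
      ⟨⟨Q, hQ⟩, by rw [mem_closedBall_zero_iff]; exact h6, rfl⟩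
    have h8 := ht2 h7
    rw [mem_iUnion₂] at h8 ⊢
    obtain ⟨y, hy, hd⟩ := h8
    refine ⟨y, hy, ?_⟩
    rw [Metric.mem_ball] at hd ⊢
    calc dist (toL a (G n)) y ≤ dist (toL a (G n)) Q + dist Q y := dist_triangle _ _ _
      _ < ε / 2 + ε / 2 := by
        rw [dist_eq_norm]
        linarith
      _ = ε := by ring
  have hcp : IsCompact (closure (range fun n => toL a (G n))) :=
    htb.closure.isCompact_of_isClosed isClosed_closure
  obtain ⟨φ, _, ψ, hψ, hlim⟩ := hcp.tendsto_subseq (x := fun n => toL a (G n))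
    (fun n => subset_closure ⟨n, rfl⟩)
  exact ⟨φ, ψ, hψ, hlim⟩

end Pool.Agent.Helper61.GA
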