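import Mathlib

set_option autoImplicit false

/-!
# A Liouville theorem for quotients
-/

namespace Pool.Agent.Helper61.GA

open Complex Filter Topology Set

/-- an entire function with `|Re z| |F z| ≤ C` vanishes -/
lemma liouville_re {F : ℂ → ℂ} (hF : Differentiable ℂ F) {C : ℝ} (hb : ∀ z, |z.re| * ‖F z‖ ≤ C) (z : ℂ) :
    F z = 0 := by
  have key : ∀ n : ℕ, ‖z‖ < (n : ℝ) + 1 →
      ‖(1 + z ^ 2 / ((n : ℂ) + 1) ^ 2) * F z‖ ≤ 2 * C / ((n : ℝ) + 1) := by
    intro n hn
    set R : ℝ := (n : ℝ) + 1 with hR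
    have hRp : 0 < R := by positivity
    have hRc : (R : ℂ) = (n : ℂ) + 1 := by rw [hR]; push_cast; rfl
    have hRc0 : (R : ℂ) ≠ 0 := by exact_mod_cast hRp.ne'
    rw [← hRc]
    set H : ℂ → ℂ := fun u => (1 + u ^ 2 / (R : ℂ) ^ 2) * F u with hH
    have hd : DiffContOnCl ℂ H (Metric.ball 0 R) := by
      apply Differentiable.diffContOnCl
      intro u
      have h1 : DifferentiableAt ℂ (fun u : ℂ => 1 + u ^ 2 / (R : ℂ) ^ 2) u := by fun_prop
      exact h1.mul (hF u)
    have hbd : ∀ u ∈ frontier (Metric.ball (0 : ℂ) R), ‖H u‖ ≤ 2 * C / R := by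
      intro u hu
      rw [frontier_ball 0 hRp.ne'] at hu
      have hun : ‖u‖ = R := by simpa using hu
      have e1 : ‖1 + u ^ 2 / (R : ℂ) ^ 2‖ = 2 * |u.re| / R := by
        have e2 : 1 + u ^ 2 / (R : ℂ) ^ 2 = u * ((2 * u.re : ℝ) : ℂ) / (R : ℂ) ^ 2 := by
          have e3 : u * (starRingEnd ℂ) u = (R : ℂ) ^ 2 := by
            rw [Complex.mul_conj, Complex.normSq_eq_norm_sq, hun]
            push_cast
            rfl
          have e4 : u + (starRingEnd ℂ) u = ((2 * u.re : ℝ) : ℂ) := Complex.add_conj u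
          have e5 : (R : ℂ) ^ 2 ≠ 0 := pow_ne_zero 2 hRc0
          rw [← e4, mul_add, e3, ← pow_two, add_div, div_self e5]
          ring
        rw [e2, norm_div, norm_mul, hun, norm_pow, Complex.norm_real, Complex.norm_real,
          Real.norm_of_nonneg hRp.le, Real.norm_eq_abs, abs_mul, abs_two]
        field_simp
      simp only [hH]
      rw [norm_mul, e1]
      calc 2 * |u.re| / R * ‖F u‖ = 2 / R * (|u.re| * ‖F u‖) := by ring
        _ ≤ 2 / R * C := mul_le_mul_of_nonneg_left (hb u) (by positivity)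
        _ = _ := by ring
    exact Complex.norm_le_of_forall_mem_frontier_norm_le Metric.isBounded_ball hd hbd
      (subset_closure (by simpa using hn))
  have hz0 : Tendsto (fun n : ℕ => 1 / ((n : ℂ) + 1)) atTop (𝓝 0) := by
    have := (tendsto_one_div_add_atTop_nhds_zero_nat (𝕜 := ℂ))
    exact this
  have h1 : Tendsto (fun n : ℕ => ‖(1 + z ^ 2 / ((n : ℂ) + 1) ^ 2) * F z‖) atTop (𝓝 ‖(1 + z ^ 2 * 0 ^ 2) * F z‖) := by
    have h2 := (((hz0.pow 2).const_mul (z ^ 2)).const_add 1).mul_const (F z)
    refine (h2.norm).congr fun n => ?_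
    congr 3
    rw [one_div, inv_pow, div_eq_mul_inv]
  have h2 : Tendsto (fun n : ℕ => 2 * C / ((n : ℝ) + 1)) atTop (𝓝 0) := by
    apply tendsto_const_nhds.div_atTop
    exact tendsto_natCast_atTop_atTop.atTop_add tendsto_const_nhds
  have h3 : ∀ᶠ n : ℕ in atTop, ‖z‖ < (n : ℝ) + 1 :=
    (tendsto_natCast_atTop_atTop.atTop_add (tendsto_const_nhds (x := (1 : ℝ)))).eventually_gt_atTop ‖z‖
  have h4 := le_of_tendsto_of_tendsto h1 h2 (h3.mono key)
  simp only [ne_eq, OfNat.ofNat_ne_zero, not_false_eq_true, zero_pow, mul_zero, add_zero, one_mul] at h4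
  exact norm_le_zero_iff.mp h4

/-- quotients of entire functions -/
lemma quot_zero {g s : ℂ → ℂ} (hg : Differentiable ℂ g) (hs : Differentiable ℂ s)
    (h0 : ∀ z, s z = 0 → g z = 0 ∧ deriv s z ≠ 0) {C : ℝ} (hb : ∀ z, |z.re| * ‖g z‖ ≤ C * ‖s z‖) (z : ℂ) :
    g z = 0 := by
  classical
  set F : ℂ → ℂ := fun z => if s z = 0 then deriv g z / deriv s z else g z / s z with hF
  have hFd : Differentiable ℂ F := by
    intro z1
    by_cases hz : s z1 = 0
    · obtain ⟨hgz, hds⟩ := h0 z1 hz
      have d1 : DifferentiableAt ℂ (dslope g z1) z1 := by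
        have := (Complex.differentiableOn_dslope (s := univ) (c := z1) (f := g) univ_mem).mpr hg.differentiableOn
        exact (this z1 (mem_univ _)).differentiableAt univ_mem
      have d2 : DifferentiableAt ℂ (dslope s z1) z1 := by
        have := (Complex.differentiableOn_dslope (s := univ) (c := z1) (f := s) univ_mem).mpr hs.differentiableOn
        exact (this z1 (mem_univ _)).differentiableAt univ_mem
      have hne : dslope s z1 z1 ≠ 0 := by
        rw [dslope_same]
        exact hds
      have h1 : F =ᶠ[𝓝 z1] fun z => dslope g z1 z / dslope s z1 z := by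
        filter_upwards [d2.continuousAt.eventually_ne hne] with w hw
        by_cases hwz : w = z1
        · rw [hwz]
          simp only [hF]
          rw [if_pos hz, dslope_same, dslope_same]
        · have e1 : g w = (w - z1) * dslope g z1 w := by
            have := sub_smul_dslope g z1 w
            rw [hgz, sub_zero, smul_eq_mul] at this
            exact this.symm
          have e2 : s w = (w - z1) * dslope s z1 w := by
            have := sub_smul_dslope s z1 w
            rw [hz, sub_zero, smul_eq_mul] at this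
            exact this.symm
          have h3 : w - z1 ≠ 0 := sub_ne_zero.mpr hwz
          simp only [hF]
          rw [if_neg (by rw [e2]; exact mul_ne_zero h3 hw), e1, e2, mul_div_mul_left _ _ h3]
      exact (d1.div d2 hne).congr_of_eventuallyEq h1
    · have h1 : F =ᶠ[𝓝 z1] fun z => g z / s z := by
        filter_upwards [(hs z1).continuousAt.eventually_ne hz] with w hw
        simp only [hF]
        rw [if_neg hw]
      exact ((hg z1).div (hs z1) hz).congr_of_eventuallyEq h1
  have hdense : Dense {z : ℂ | s z ≠ 0} := by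
    intro z1
    by_contra hcl
    rw [mem_closure_iff_nhds] at hcl
    push Not at hcl
    obtain ⟨U, hU, hUe⟩ := hcl
    have h1 : s =ᶠ[𝓝 z1] fun _ => 0 := by
      filter_upwards [hU] with w hw
      by_contra hne
      have : w ∈ U ∩ {z : ℂ | s z ≠ 0} := ⟨hw, hne⟩
      rw [hUe] at this
      exact this
    have h2 := h1.self_of_nhds
    exact (h0 z1 h2).2 (by rw [h1.deriv_eq]; simp)
  have hbF : ∀ z, |z.re| * ‖F z‖ ≤ C := by
    have hcl : IsClosed {z : ℂ | |z.re| * ‖F z‖ ≤ C} := by
      apply isClosed_le _ continuous_const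
      exact (Complex.continuous_re.abs).mul hFd.continuous.norm
    have hsub : {z : ℂ | s z ≠ 0} ⊆ {z : ℂ | |z.re| * ‖F z‖ ≤ C} := by
      intro z hz
      have hz' : s z ≠ 0 := hz
      show |z.re| * ‖F z‖ ≤ C
      simp only [hF]
      rw [if_neg hz', norm_div, ← mul_div_assoc, div_le_iff₀ (norm_pos_iff.mpr hz')]
      exact hb z
    intro z
    have := (hcl.closure_subset_iff.mpr hsub) (hdense z)
    exact this
  have hz := liouville_re hFd hbF z
  by_cases h : s z = 0
  · exact (h0 z h).1
  · simp only [hF] at hz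
    rw [if_neg h] at hz
    exact (div_eq_zero_iff.mp hz).resolve_right h

end Pool.Agent.Helper61.GA
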