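import Pool.Agent.Helper61.GA.Rr

set_option autoImplicit false

/-!
# The structure of the space of ground states
-/

namespace Pool.Agent.Helper61.GA

open Complex Filter Topology Set MeasureTheory
open Pool.Agent.Helper61.W Pool.Agent.Helper61.W.GS
open scoped ComplexConjugate ContDiff Polynomial

variable {D : Dat} {a : ℝ}

/-- the polynomials that multiply `ψ` into the space of ground states -/
noncomputable def Dat.Pol (D : Dat) (ha : 0 < a) (ψ : HL) : Submodule ℂ ℂ[X] where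
  carrier := {p | ∃ φ ∈ D.E ha, ∀ z, ev a z φ = p.eval z * ev a z ψ}
  add_mem' := by
    rintro p q ⟨φ, h1, h2⟩ ⟨χ, h3, h4⟩
    refine ⟨φ + χ, (D.E ha).add_mem h1 h3, fun z => ?_⟩
    rw [map_add, h2, h4, Polynomial.eval_add]
    ring
  zero_mem' := ⟨0, (D.E ha).zero_mem, fun z => by simp⟩
  smul_mem' := by
    rintro c p ⟨φ, h1, h2⟩
    refine ⟨c • φ, (D.E ha).smul_mem c h1, fun z => ?_⟩
    rw [map_smul, h2, Polynomial.eval_smul, smul_eq_mul, smul_eq_mul]
    ring

/-- division by a product of distinct linear factors off the line -/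
lemma div_many (ha : 0 < a) (n : ℕ) : ∀ φ ∈ D.E ha, (∀ j < n, ev a ((j : ℂ) + 1) φ = 0) →
    ∃ ψ ∈ D.E ha, ∀ z, ev a z φ = (∏ j ∈ Finset.range n, (z - ((j : ℂ) + 1))) * ev a z ψ := by
  induction n with
  | zero =>
    intro φ hφ _
    exact ⟨φ, hφ, fun z => by simp⟩
  | succ n ih =>
    intro φ hφ h
    obtain ⟨χ, hχ, h1⟩ := ih φ hφ fun j hj => h j (by omega)
    have hre : ((n : ℂ) + 1).re ≠ 0 := by
      simp
      positivity
    have h2 : ev a ((n : ℂ) + 1) χ = 0 := by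
      have h3 := h n (by omega)
      rw [h1] at h3
      refine (mul_eq_zero.mp h3).resolve_left ?_
      rw [← ne_eq, Finset.prod_ne_zero_iff]
      intro j hj h4
      rw [Finset.mem_range] at hj
      have h5 : (n : ℂ) = (j : ℂ) := by linear_combination h4
      have : n = j := by exact_mod_cast h5
      omega
    obtain ⟨ψ, hψ, h3⟩ := E_div (D := D) ha hχ hre h2
    refine ⟨ψ, hψ, fun z => ?_⟩
    rw [h1, h3, Finset.prod_range_succ]
    ring

lemma pol_div (ha : 0 < a) {ψ : HL} {q : ℂ[X]} {w : ℂ} (hw : w.re ≠ 0)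
    (h : q * (Polynomial.X - Polynomial.C w) ∈ D.Pol ha ψ) : q ∈ D.Pol ha ψ := by
  obtain ⟨φ, hφ, h1⟩ := h
  have h0 : ev a w φ = 0 := by rw [h1]; simp
  obtain ⟨χ, hχ, h2⟩ := E_div (D := D) ha hφ hw h0
  refine ⟨χ, hχ, ?_⟩
  apply cancel_factor (w := w) (ev_cont χ) (q.continuous.mul (ev_cont ψ))
  intro z
  rw [← h2, h1]
  simp
  ring

/-- a ground state that can be multiplied by all polynomials of degree less than the dimension -/
lemma exists_gen (ha : 0 < a) : ∃ ψ ∈ D.E ha, ψ ≠ 0 ∧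
    ∀ p : ℂ[X], p.natDegree < Module.finrank ℂ (D.E ha) → p ∈ D.Pol ha ψ := by
  obtain ⟨φ0, hφ0, hn0⟩ := exists_ground (D := D) ha
  have hne : φ0 ≠ 0 := by
    rintro rfl
    simp at hn0
  have : Nontrivial (D.E ha) := ⟨⟨⟨φ0, hφ0⟩, 0, fun h => hne (by simpa using congrArg Subtype.val h)⟩⟩
  have hd : 0 < Module.finrank ℂ (D.E ha) := Module.finrank_pos
  obtain ⟨n, hn⟩ : ∃ n, Module.finrank ℂ (D.E ha) = n + 1 := ⟨_, (Nat.succ_pred_eq_of_pos hd).symm⟩
  -- a nonzero ground state vanishing at `1, …, n`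
  set T : D.E ha →ₗ[ℂ] (Fin n → ℂ) := LinearMap.pi fun j =>
    ((ev a ((j : ℂ) + 1)).toLinearMap).comp (D.E ha).subtype with hT
  have hker : LinearMap.ker T ≠ ⊥ := by
    apply LinearMap.ker_ne_bot_of_finrank_lt
    rw [hn, Module.finrank_fin_fun]
    exact Nat.lt_succ_self n
  obtain ⟨φ, hφ, hφ0⟩ := Submodule.exists_mem_ne_zero_of_ne_bot hker
  have hv : ∀ j < n, ev a ((j : ℂ) + 1) (φ : HL) = 0 := by
    intro j hj
    have h1 := congrFun (LinearMap.mem_ker.mp hφ) ⟨j, hj⟩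
    exact h1
  obtain ⟨ψ, hψ, h1⟩ := div_many (D := D) ha n φ φ.2 hv
  refine ⟨ψ, hψ, ?_, ?_⟩
  · rintro rfl
    apply hφ0
    apply Subtype.ext
    apply E_zero (D := D) ha φ.2
    intro z
    rw [h1 z]
    simp
  · intro p hp
    rw [hn] at hp
    refine pol_all (n := n) ?_ n le_rfl p (by omega)
    intro j hj
    refine ⟨∏ i ∈ Finset.range j, (Polynomial.X - Polynomial.C ((i : ℂ) + 1)), ?_, ?_, ?_⟩
    · -- divide by the other factors
      have hk : ∀ k, k ≤ n → (∏ i ∈ Finset.range (n - k), (Polynomial.X - Polynomial.C ((i : ℂ) + 1))) ∈ D.Pol ha ψ := by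
        intro k
        induction k with
        | zero =>
          intro _
          refine ⟨φ, φ.2, fun z => ?_⟩
          rw [h1, Polynomial.eval_prod]
          simp
        | succ k ih =>
          intro hk
          have h2 := ih (by omega)
          have e : n - k = (n - (k + 1)) + 1 := by omega
          rw [e, Finset.prod_range_succ] at h2
          refine pol_div (D := D) ha ?_ h2
          simp
          positivity
      have := hk (n - j) (by omega)
      rwa [Nat.sub_sub_self hj] at this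
    · exact Polynomial.monic_prod_of_monic _ _ fun i _ => Polynomial.monic_X_sub_C _
    · rw [Polynomial.natDegree_prod_of_monic _ _ fun i _ => Polynomial.monic_X_sub_C _]
      simp only [Polynomial.natDegree_X_sub_C, Finset.sum_const, smul_eq_mul, mul_one, Finset.card_range]

/-- every element is a polynomial multiple of such a ground state -/
lemma gen_all (ha : 0 < a) {ψ : HL} (hψ : ψ ∈ D.E ha) (h0 : ψ ≠ 0)
    (h : ∀ p : ℂ[X], p.natDegree < Module.finrank ℂ (D.E ha) → p ∈ D.Pol ha ψ) (φ : HL) (hφ : φ ∈ D.E ha) :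
    ∃ p : ℂ[X], p.natDegree < Module.finrank ℂ (D.E ha) ∧ ∀ z, ev a z φ = p.eval z * ev a z ψ := by
  have : Nontrivial (D.E ha) := ⟨⟨⟨ψ, hψ⟩, 0, fun h => h0 (by simpa using congrArg Subtype.val h)⟩⟩
  have hd : 0 < Module.finrank ℂ (D.E ha) := Module.finrank_pos
  set d := Module.finrank ℂ (D.E ha) with hdd
  have h1 : ∀ j : Fin d, ∃ χ : D.E ha, ∀ z, ev a z (χ : HL) = z ^ (j : ℕ) * ev a z ψ := by
    intro j
    obtain ⟨χ, hχ, h2⟩ := h (Polynomial.X ^ (j : ℕ)) (by rw [Polynomial.natDegree_X_pow]; exact j.2)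
    exact ⟨⟨χ, hχ⟩, fun z => by rw [h2]; simp⟩
  choose χ hχ using h1
  have hev : ∀ (g : Fin d → ℂ) (z : ℂ), ev a z ((∑ j, g j • χ j : D.E ha) : HL) =
      (∑ j : Fin d, Polynomial.C (g j) * Polynomial.X ^ (j : ℕ) : ℂ[X]).eval z * ev a z ψ := by
    intro g z
    rw [Polynomial.eval_finsetSum, Finset.sum_mul, AddSubmonoidClass.coe_finsetSum, map_sum]
    refine Finset.sum_congr rfl fun j _ => ?_
    rw [Submodule.coe_smul, map_smul, hχ]
    simp [mul_assoc]
  have hli : LinearIndependent ℂ χ := by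
    rw [Fintype.linearIndependent_iff]
    intro g hg i
    set p : Polynomial ℂ := ∑ j : Fin d, Polynomial.C (g j) * Polynomial.X ^ (j : ℕ) with hp
    obtain ⟨z0, hz0⟩ : ∃ z0, ev a z0 ψ ≠ 0 := by
      by_contra hcon
      push Not at hcon
      exact h0 (E_zero (D := D) ha hψ hcon)
    have hroot : ∀ z, ev a z ψ ≠ 0 → p.eval z = 0 := by
      intro z hz
      have h2 : ev a z ((∑ j, g j • χ j : D.E ha) : HL) = 0 := by rw [hg]; simp
      rw [hev] at h2
      exact (mul_eq_zero.mp h2).resolve_right hz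
    have hinf : {x : ℂ | p.IsRoot x}.Infinite := by
      have h2 : {z : ℂ | ev a z ψ ≠ 0} ∈ 𝓝 z0 := (ev_cont ψ).continuousAt.eventually_ne hz0
      exact (infinite_of_mem_nhds z0 h2).mono fun z hz => hroot z hz
    have hp0 : p = 0 := Polynomial.eq_zero_of_infinite_isRoot p hinf
    have h5 : p.coeff i = g i := by
      rw [hp, Polynomial.finsetSum_coeff]
      rw [Finset.sum_eq_single i]
      · simp
      · intro j _ hj
        rw [Polynomial.coeff_C_mul_X_pow, if_neg]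
        intro heq
        exact hj (Fin.ext heq.symm)
      · simp
    rw [← h5, hp0, Polynomial.coeff_zero]
  have hspan := hli.span_eq_top_of_card_eq_finrank' (by rw [Fintype.card_fin])
  have hmem : (⟨φ, hφ⟩ : D.E ha) ∈ Submodule.span ℂ (range χ) := by rw [hspan]; exact Submodule.mem_top
  rw [Submodule.mem_span_range_iff_exists_fun] at hmem
  obtain ⟨g, hg⟩ := hmem
  refine ⟨∑ j : Fin d, Polynomial.C (g j) * Polynomial.X ^ (j : ℕ), ?_, fun z => ?_⟩
  · have h2 : (∑ j : Fin d, Polynomial.C (g j) * Polynomial.X ^ (j : ℕ) : ℂ[X]).natDegree ≤ d - 1 := by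
      rw [Polynomial.natDegree_le_iff_coeff_eq_zero]
      intro N hN
      rw [Polynomial.finsetSum_coeff]
      apply Finset.sum_eq_zero
      intro j _
      rw [Polynomial.coeff_C_mul_X_pow, if_neg]
      have := j.2
      omega
    omega
  · rw [← hev, hg]

/-- the structure of the space of ground states -/
theorem structure_thm (ha : 0 < a) : ∃ ψ ∈ D.E ha, ψ ≠ 0 ∧ 0 < Module.finrank ℂ (D.E ha) ∧
    (∀ z, ev a z ψ = 0 → z.re = 0 ∧ deriv (fun z => ev a z ψ) z ≠ 0) ∧
    (∀ p : ℂ[X], p.natDegree < Module.finrank ℂ (D.E ha) → ∃ φ ∈ D.E ha, ∀ z, ev a z φ = p.eval z * ev a z ψ) ∧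
    (∀ φ ∈ D.E ha, ∃ p : ℂ[X], p.natDegree < Module.finrank ℂ (D.E ha) ∧ ∀ z, ev a z φ = p.eval z * ev a z ψ) := by
  obtain ⟨ψ, hψ, h0, h⟩ := exists_gen (D := D) ha
  have : Nontrivial (D.E ha) := ⟨⟨⟨ψ, hψ⟩, 0, fun h => h0 (by simpa using congrArg Subtype.val h)⟩⟩
  have hd : 0 < Module.finrank ℂ (D.E ha) := Module.finrank_pos
  refine ⟨ψ, hψ, h0, hd, ?_, h, gen_all (D := D) ha hψ h0 h⟩
  obtain ⟨n, hn⟩ : ∃ n, Module.finrank ℂ (D.E ha) = n + 1 := ⟨_, (Nat.succ_pred_eq_of_pos hd).symm⟩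
  have hmax : ¬ ∃ ψ ∈ D.E ha, ψ ≠ 0 ∧ ∃ φ ∈ D.E ha, ∀ z, ev a z φ = (z - 1) ^ (n + 1) * ev a z ψ := by
    rintro ⟨ψ', hψ', h0', φ', hφ', h'⟩
    have := ladder_card (D := D) ha hψ' h0' hφ' h'
    omega
  obtain ⟨φ, hφ, h1⟩ := h ((Polynomial.X - Polynomial.C 1) ^ n) (by
    rw [Polynomial.natDegree_pow, Polynomial.natDegree_X_sub_C]
    omega)
  refine real_rooted_of_max (D := D) ha hmax hψ h0 hφ fun z => ?_
  rw [h1]
  simp

end Pool.Agent.Helper61.GA
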