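import Pool.Agent.Helper61.GA.Dn
import Pool.Agent.Helper61.GA.Se

set_option autoImplicit false

/-!
# Ground states as functions
-/

namespace Pool.Agent.Helper61.GA

open Complex Filter Topology Set MeasureTheory
open Pool.Agent.Helper61.W Pool.Agent.Helper61.W.GS
open scoped ComplexConjugate ContDiff Polynomial

variable {D : Dat} {a : ℝ}

/-- ground states as functions -/
def Dat.IsG (D : Dat) (a : ℝ) (φ : ℝ → ℂ) : Prop :=
  MemLp φ 2 (volume : Measure ℝ) ∧ (∀ x, a < |x| → φ x = 0) ∧ 0 < ∫ x, ‖φ x‖ ^ 2 ∧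
    ∃ g : ℕ → ℝ → ℂ, (∀ n, g n ∈ Ts a) ∧ Tendsto (fun n => ∫ x, ‖g n x - φ x‖ ^ 2) atTop (𝓝 0) ∧
      Tendsto (fun n => (D.Wf (g n) (g n)).re) atTop (𝓝 (D.low a * ∫ x, ‖φ x‖ ^ 2))

lemma Dat.IsG.mem (ha : 0 < a) {φ : ℝ → ℂ} (h : D.IsG a φ) : h.1.toLp φ ∈ D.E ha ∧ h.1.toLp φ ≠ 0 := by
  obtain ⟨hm, h0, hp, g, hg, h1, h2⟩ := h
  have hn : ‖hm.toLp φ‖ ^ 2 = ∫ x, ‖φ x‖ ^ 2 := norm_toLp_sq hm
  have hlim : Tendsto (fun n => toL a ⟨g n, hg n⟩) atTop (𝓝 (hm.toLp φ)) := by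
    rw [tendsto_iff_norm_sub_tendsto_zero]
    have h3 : Tendsto (fun n => Real.sqrt (∫ x, ‖g n x - φ x‖ ^ 2)) atTop (𝓝 0) := by
      have := h1.sqrt
      rwa [Real.sqrt_zero] at this
    refine h3.congr fun n => ?_
    have := toLp_sub_norm hm ⟨g n, hg n⟩
    simp only at this
    rw [← this, Real.sqrt_sq (norm_nonneg _)]
  refine ⟨⟨fun n => ⟨g n, hg n⟩, hlim, ?_⟩, ?_⟩
  · have h3 : Tendsto (fun n => (D.form ha).bn ⟨g n, hg n⟩ ^ 2) atTop (𝓝 0) := by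
      have h4 := h2.sub ((hlim.norm.pow 2).const_mul (D.low a))
      rw [hn, sub_self] at h4
      refine h4.congr fun n => ?_
      rw [(D.form ha).bn_sq, form_self]
    have h4 := h3.sqrt
    rw [Real.sqrt_zero] at h4
    refine h4.congr fun n => ?_
    rw [Real.sqrt_sq ((D.form ha).bn_nonneg _)]
  · intro h3
    rw [h3, norm_zero] at hn
    simp at hn
    rw [← hn] at hp
    exact lt_irrefl _ hp

/-- the elements of the space are represented by ground states -/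
lemma exists_IsG (ha : 0 < a) {φ : HL} (h : φ ∈ D.E ha) (hne : φ ≠ 0) :
    ∃ f : ℝ → ℂ, D.IsG a f ∧ ∀ z, ∫ x : ℝ, f x * cexp (z * x) = ev a z φ := by
  obtain ⟨G, h1, h2⟩ := h
  have hmφ := Lp.memLp φ
  -- the values outside the interval vanish
  have hout : ∫ x in (Icc (-a) a)ᶜ, ‖(φ : ℝ → ℂ) x‖ ^ 2 = 0 := by
    have hle : ∀ n, ∫ x in (Icc (-a) a)ᶜ, ‖(φ : ℝ → ℂ) x‖ ^ 2 ≤ ‖toL a (G n) - φ‖ ^ 2 := by
      intro n
      have e1 : ‖toL a (G n) - φ‖ ^ 2 = ∫ x, ‖((G n : Ts a) : ℝ → ℂ) x - (φ : ℝ → ℂ) x‖ ^ 2 := by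
        have := toLp_sub_norm hmφ (G n)
        rwa [Lp.toLp_coeFn] at this
      rw [e1]
      have hi : Integrable fun x => ‖((G n : Ts a) : ℝ → ℂ) x - (φ : ℝ → ℂ) x‖ ^ 2 :=
        ((Ts.memLp (G n).2).sub hmφ).integrable_norm_pow (by norm_num)
      have e2 : ∫ x in (Icc (-a) a)ᶜ, ‖(φ : ℝ → ℂ) x‖ ^ 2 =
          ∫ x in (Icc (-a) a)ᶜ, ‖((G n : Ts a) : ℝ → ℂ) x - (φ : ℝ → ℂ) x‖ ^ 2 := by
        apply setIntegral_congr_fun measurableSet_Icc.compl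
        intro x hx
        simp only
        rw [(G n).2.2 x, zero_sub, norm_neg]
        by_contra hlt
        push Not at hlt
        exact hx ⟨(abs_le.mp hlt).1, (abs_le.mp hlt).2⟩
      rw [e2]
      exact setIntegral_le_integral hi (Eventually.of_forall fun x => by positivity)
    have hl : Tendsto (fun n => ‖toL a (G n) - φ‖ ^ 2) atTop (𝓝 0) := by
      have := (tendsto_iff_norm_sub_tendsto_zero.mp h1).pow 2
      simpa using this
    refine le_antisymm (ge_of_tendsto' hl hle) ?_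
    exact integral_nonneg fun x => by positivity
  have hae : ∀ᵐ x, x ∈ (Icc (-a) a)ᶜ → (φ : ℝ → ℂ) x = 0 := by
    have hi : IntegrableOn (fun x => ‖(φ : ℝ → ℂ) x‖ ^ 2) (Icc (-a) a)ᶜ :=
      (hmφ.integrable_norm_pow (by norm_num)).integrableOn
    rw [setIntegral_eq_zero_iff_of_nonneg_ae (Eventually.of_forall fun x => by positivity) hi] at hout
    have h3 := (ae_restrict_iff' measurableSet_Icc.compl).mp hout
    filter_upwards [h3] with x hx hx2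
    have := hx hx2
    simpa using this
  set f : ℝ → ℂ := indicator (Icc (-a) a) (φ : ℝ → ℂ) with hf
  have hfe : f =ᵐ[volume] (φ : ℝ → ℂ) := by
    filter_upwards [hae] with x hx
    by_cases hm : x ∈ Icc (-a) a
    · rw [hf, indicator_of_mem hm]
    · rw [hf, indicator_of_notMem hm, hx hm]
  have hmf : MemLp f 2 (volume : Measure ℝ) := (memLp_congr_ae hfe).mpr hmφ
  have hLp : hmf.toLp f = φ := by
    rw [← Lp.toLp_coeFn φ hmφ]
    exact (MemLp.toLp_eq_toLp_iff hmf hmφ).mpr hfe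
  have hn : ∫ x, ‖f x‖ ^ 2 = ‖φ‖ ^ 2 := by
    rw [← norm_toLp_sq hmf, hLp]
  have h0 : ∀ x, a < |x| → f x = 0 := by
    intro x hx
    rw [hf, indicator_of_notMem]
    intro hm
    have := abs_le.mpr ⟨hm.1, hm.2⟩
    linarith
  refine ⟨f, ⟨hmf, h0, ?_, fun n => G n, fun n => (G n).2, ?_, ?_⟩, fun z => ?_⟩
  · rw [hn]
    have := norm_pos_iff.mpr hne
    positivity
  · have hl : Tendsto (fun n => ‖toL a (G n) - φ‖ ^ 2) atTop (𝓝 0) := by
      have := (tendsto_iff_norm_sub_tendsto_zero.mp h1).pow 2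
      simpa using this
    refine hl.congr fun n => ?_
    have := toLp_sub_norm hmf (G n)
    rw [hLp] at this
    exact this
  · have h3 := (h2.pow 2).add ((h1.norm.pow 2).const_mul (D.low a))
    rw [hn]
    have e : (0 : ℝ) ^ 2 + D.low a * ‖φ‖ ^ 2 = D.low a * ‖φ‖ ^ 2 := by ring
    rw [e] at h3
    refine h3.congr fun n => ?_
    rw [(D.form ha).bn_sq, form_self]
    ring
  · rw [← ev_of hmf h0 z, hLp]

/-- the main theorem for an abstract configuration -/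
theorem main (D : Dat) :
    (∀ a : ℝ, 0 < a → BddBelow {r : ℝ | ∃ g : ℝ → ℂ, g ∈ Ts a ∧ ∫ x, ‖g x‖ ^ 2 = 1 ∧ r = (D.Wf g g).re} ∧
      ∃ (ψ : ℝ → ℂ) (d : ℕ), D.IsG a ψ ∧
        (∀ z : ℂ, W.LT ψ z = 0 → z.re = 0 ∧ deriv (W.LT ψ) z ≠ 0) ∧
        ∀ F : ℂ → ℂ, (∃ φ : ℝ → ℂ, D.IsG a φ ∧ W.LT φ = F) ↔
          ∃ p : ℂ[X], p ≠ 0 ∧ p.natDegree < d ∧ ∀ z, F z = p.eval z * W.LT ψ z) ∧
    (∀ ρ : D.ι, (D.z ρ).re = 0 → ∀ ε : ℝ, 0 < ε → ∃ A : ℝ, ∀ a : ℝ, A ≤ a → 0 < a → ∀ φ : ℝ → ℂ, D.IsG a φ →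
      ∃ z : ℂ, ‖z - D.z ρ‖ < ε ∧ W.LT φ z = 0) ∧
    ((∃ ρ : D.ι, (D.z ρ).re ≠ 0) → ∀ w : ℂ, w.re = 0 → ∀ ε : ℝ, 0 < ε → ∃ A : ℝ, ∀ a : ℝ, A ≤ a → 0 < a →
      ∀ φ : ℝ → ℂ, D.IsG a φ → ∃ z : ℂ, ‖z - w‖ < ε ∧ W.LT φ z = 0) := by
  have hLT : ∀ {a : ℝ} {φ : ℝ → ℂ} (h : D.IsG a φ) (z : ℂ), W.LT φ z = ev a z (h.1.toLp φ) := by
    intro a φ h z
    exact (ev_of h.1 h.2.1 z).symm
  refine ⟨?_, ?_, ?_⟩
  · intro a ha
    refine ⟨low_bdd ha, ?_⟩
    obtain ⟨ψ, hψ, h0, hd, hr, hs1, hs2⟩ := structure_thm (D := D) ha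
    obtain ⟨f, hf, hfe⟩ := exists_IsG ha hψ h0
    have hT : ∀ s, W.LT f s = ev a s ψ := hfe
    refine ⟨f, Module.finrank ℂ (D.E ha), hf, ?_, ?_⟩
    · intro z hz
      have e : W.LT f = fun z => ev a z ψ := funext hT
      rw [e] at hz ⊢
      exact hr z hz
    · intro F
      constructor
      · rintro ⟨φ, hφ, rfl⟩
        obtain ⟨h1, h2⟩ := hφ.mem ha
        obtain ⟨p, hp1, hp2⟩ := hs2 _ h1
        refine ⟨p, ?_, hp1, fun z => ?_⟩
        · rintro rfl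
          apply h2
          apply E_zero ha h1
          intro z
          rw [hp2 z, Polynomial.eval_zero, zero_mul]
        · rw [hLT hφ, hp2, hT]
      · rintro ⟨p, hp0, hp1, hp2⟩
        obtain ⟨φ, h1, h2⟩ := hs1 p hp1
        have hne : φ ≠ 0 := by
          rintro rfl
          apply hp0
          obtain ⟨z0, hz0⟩ : ∃ z0, ev a z0 ψ ≠ 0 := by
            by_contra hcon
            push Not at hcon
            exact h0 (E_zero ha hψ hcon)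
          apply Polynomial.eq_zero_of_infinite_isRoot
          have h3 : {z : ℂ | ev a z ψ ≠ 0} ∈ 𝓝 z0 := (ev_cont ψ).continuousAt.eventually_ne hz0
          refine (infinite_of_mem_nhds _ h3).mono fun z hz => ?_
          have h4 := h2 z
          rw [map_zero] at h4
          exact (mul_eq_zero.mp h4.symm).resolve_right hz
        obtain ⟨k, hk, hke⟩ := exists_IsG ha h1 hne
        refine ⟨k, hk, funext fun z => ?_⟩
        have e : W.LT k z = ev a z φ := hke z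
        rw [e, h2, hp2, hT]
  · intro ρ hρ ε hε
    obtain ⟨A, hA⟩ := critical_zeros ρ hρ hε
    refine ⟨A, fun a haA ha φ hφ => ?_⟩
    obtain ⟨z, h1, h2⟩ := hA a haA ha _ (hφ.mem ha).1
    exact ⟨z, h1, by rw [hLT hφ]; exact h2⟩
  · intro hoff w hw ε hε
    obtain ⟨A, hA⟩ := zeros_dense (low_atBot hoff) w hw hε
    refine ⟨A, fun a haA ha φ hφ => ?_⟩
    obtain ⟨z, h1, h2⟩ := hA a haA ha _ (hφ.mem ha).1
    exact ⟨z, h1, by rw [hLT hφ]; exact h2⟩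

end Pool.Agent.Helper61.GA
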