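import Pool.Agent.Helper61.GA.Fo

set_option autoImplicit false

/-!
# Ground states
-/

namespace Pool.Agent.Helper61.GA

open Complex Filter Topology Set MeasureTheory
open Pool.Agent.Helper61.W Pool.Agent.Helper61.W.GS
open scoped ComplexConjugate ContDiff

variable {D : Dat} {a : ℝ}

/-- the space of ground states -/
noncomputable def Dat.E (D : Dat) (ha : 0 < a) : Submodule ℂ HL where
  carrier := {φ | ∃ G : ℕ → Ts a, Tendsto (fun n => toL a (G n)) atTop (𝓝 φ) ∧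
    Tendsto (fun n => (D.form ha).bn (G n)) atTop (𝓝 0)}
  add_mem' := by
    rintro φ ψ ⟨G, h1, h2⟩ ⟨H, h3, h4⟩
    refine ⟨fun n => G n + H n, ?_, ?_⟩
    · simp only [map_add]
      exact h1.add h3
    · have h5 := h2.add h4
      rw [add_zero] at h5
      exact squeeze_zero (fun n => (D.form ha).bn_nonneg _) (fun n => (D.form ha).bn_add _ _) h5
  zero_mem' := by
    refine ⟨fun _ => 0, ?_, ?_⟩
    · simp only [map_zero]
      exact tendsto_const_nhds
    · have h : (D.form ha).bn 0 = 0 := by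
        have := (D.form ha).bn_smul 0 0
        simpa using this
      simp only [h]
      exact tendsto_const_nhds
  smul_mem' := by
    rintro c φ ⟨G, h1, h2⟩
    refine ⟨fun n => c • G n, ?_, ?_⟩
    · simp only [map_smul]
      exact h1.const_smul c
    · simp only [(D.form ha).bn_smul]
      have := h2.const_mul ‖c‖
      rwa [mul_zero] at this

lemma E_closure (ha : 0 < a) {φ : HL} (h : φ ∈ D.E ha) : φ ∈ closure (range (toL a)) := by
  obtain ⟨G, h1, _⟩ := h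
  exact mem_closure_of_tendsto h1 (Eventually.of_forall fun n => ⟨G n, rfl⟩)

lemma E_zero (ha : 0 < a) {φ : HL} (h : φ ∈ D.E ha) (h0 : ∀ z, ev a z φ = 0) : φ = 0 :=
  ev_zero (E_closure (D := D) ha h) h0

/-- compactness for the shifted D.form -/
lemma seqcomp' (ha : 0 < a) (G : ℕ → Ts a) (M : ℝ) (h1 : ∀ n, ‖toL a (G n)‖ ≤ M)
    (h2 : ∀ n, (D.form ha).bn (G n) ≤ M) : ∃ φ : HL, ∃ ψ : ℕ → ℕ, StrictMono ψ ∧
      Tendsto (fun n => toL a (G (ψ n))) atTop (𝓝 φ) := by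
  have hM : 0 ≤ M := (norm_nonneg _).trans (h1 0)
  apply seqcomp (D := D) ha G (M + M ^ 2 + |D.low a| * M ^ 2)
  · intro n
    have := h1 n
    have h3 : 0 ≤ M ^ 2 + |D.low a| * M ^ 2 := by positivity
    linarith
  · intro n
    have e1 := form_self (D := D) ha (G n)
    rw [← (D.form ha).bn_sq] at e1
    have e2 : (D.form ha).bn (G n) ^ 2 ≤ M ^ 2 := pow_le_pow_left₀ ((D.form ha).bn_nonneg _) (h2 n) 2
    have e3 : ‖toL a (G n)‖ ^ 2 ≤ M ^ 2 := pow_le_pow_left₀ (norm_nonneg _) (h1 n) 2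
    have e4 : D.low a * ‖toL a (G n)‖ ^ 2 ≤ |D.low a| * M ^ 2 :=
      (mul_le_mul_of_nonneg_right (le_abs_self _) (sq_nonneg _)).trans
        (mul_le_mul_of_nonneg_left e3 (abs_nonneg _))
    linarith

lemma exists_ground (ha : 0 < a) : ∃ φ ∈ D.E ha, ‖φ‖ = 1 := by
  -- minimising sequence
  have h1 : ∀ n : ℕ, ∃ g : Ts a, ‖toL a g‖ = 1 ∧ (D.Wf g g).re < D.low a + 1 / ((n : ℝ) + 1) := by
    intro n
    have h2 : sInf {r : ℝ | ∃ g : ℝ → ℂ, g ∈ Ts a ∧ ∫ x, ‖g x‖ ^ 2 = 1 ∧ r = (D.Wf g g).re} <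
        D.low a + 1 / ((n : ℝ) + 1) := by
      have : (0 : ℝ) < 1 / ((n : ℝ) + 1) := by positivity
      show D.low a < _
      linarith
    obtain ⟨r, ⟨g, hg, h3, rfl⟩, h4⟩ := exists_lt_of_csInf_lt (low_nonempty (D := D) ha) h2
    refine ⟨⟨g, hg⟩, ?_, h4⟩
    have h5 := norm_toL (⟨g, hg⟩ : Ts a)
    simp only [h3] at h5
    exact (pow_eq_one_iff_of_nonneg (norm_nonneg _) (by norm_num)).mp h5
  choose G hG1 hG2 using h1
  have hb : ∀ n, (D.form ha).bn (G n) ^ 2 ≤ 1 / ((n : ℝ) + 1) := by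
    intro n
    rw [(D.form ha).bn_sq, form_self (D := D), hG1]
    have := hG2 n
    linarith
  have hlim : Tendsto (fun n => (D.form ha).bn (G n)) atTop (𝓝 0) := by
    have h3 : Tendsto (fun n : ℕ => Real.sqrt (1 / ((n : ℝ) + 1))) atTop (𝓝 0) := by
      have := (tendsto_one_div_add_atTop_nhds_zero_nat (𝕜 := ℝ)).sqrt
      rwa [Real.sqrt_zero] at this
    refine squeeze_zero (fun n => (D.form ha).bn_nonneg _) (fun n => ?_) h3
    exact Real.le_sqrt_of_sq_le (hb n)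
  obtain ⟨φ, ψ, hψ, hφ⟩ := seqcomp' (D := D) ha G 1 (fun n => (hG1 n).le) (fun n => by
    have h3 := hb n
    have h4 : (1 : ℝ) / ((n : ℝ) + 1) ≤ 1 := by
      rw [div_le_one (by positivity)]
      linarith [(Nat.cast_nonneg n : (0 : ℝ) ≤ n)]
    have h5 : (D.form ha).bn (G n) ^ 2 ≤ 1 ^ 2 := by
      rw [one_pow]
      exact h3.trans h4
    exact (pow_le_pow_iff_left₀ ((D.form ha).bn_nonneg _) zero_le_one (by norm_num)).mp h5)
  refine ⟨φ, ⟨fun n => G (ψ n), hφ, hlim.comp hψ.tendsto_atTop⟩, ?_⟩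
  have h6 := hφ.norm
  simp only [hG1] at h6
  exact tendsto_nhds_unique h6 tendsto_const_nhds

instance E_fin (ha : 0 < a) : FiniteDimensional ℂ (D.E ha) := by
  apply FiniteDimensional.of_isCompact_closedBall₀ ℂ (r := 1) one_pos
  apply IsSeqCompact.isCompact
  intro x hx
  -- approximants
  have h1 : ∀ n : ℕ, ∃ g : Ts a, ‖toL a g - (x n : HL)‖ ≤ 1 / ((n : ℝ) + 1) ∧
      (D.form ha).bn g ≤ 1 / ((n : ℝ) + 1) := by
    intro n
    obtain ⟨G, hG1, hG2⟩ := (x n).2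
    have hp : (0 : ℝ) < 1 / ((n : ℝ) + 1) := by positivity
    have h2 := Metric.tendsto_atTop.mp hG1 _ hp
    have h3 := Metric.tendsto_atTop.mp hG2 _ hp
    obtain ⟨N1, h2⟩ := h2
    obtain ⟨N2, h3⟩ := h3
    refine ⟨G (max N1 N2), ?_, ?_⟩
    · have := h2 _ (le_max_left N1 N2)
      rw [dist_eq_norm] at this
      exact this.le
    · have := h3 _ (le_max_right N1 N2)
      rw [Real.dist_eq, sub_zero, abs_of_nonneg ((D.form ha).bn_nonneg _)] at this
      exact this.le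
  choose G hG1 hG2 using h1
  have hle1 : ∀ n : ℕ, (1 : ℝ) / ((n : ℝ) + 1) ≤ 1 := by
    intro n
    rw [div_le_one (by positivity)]
    linarith [(Nat.cast_nonneg n : (0 : ℝ) ≤ n)]
  have hx1 : ∀ n, ‖(x n : HL)‖ ≤ 1 := by
    intro n
    have := hx n
    rw [mem_closedBall_zero_iff] at this
    exact this
  obtain ⟨φ, ψ, hψ, hφ⟩ := seqcomp' (D := D) ha G 2 (fun n => by
    have e : toL a (G n) = (toL a (G n) - (x n : HL)) + (x n : HL) := by abel
    rw [e]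
    refine (norm_add_le _ _).trans ?_
    linarith [hG1 n, hx1 n, hle1 n]) (fun n => by linarith [hG2 n, hle1 n])
  have hz : Tendsto (fun n : ℕ => 1 / ((ψ n : ℝ) + 1)) atTop (𝓝 0) :=
    (tendsto_one_div_add_atTop_nhds_zero_nat (𝕜 := ℝ)).comp hψ.tendsto_atTop
  have hxφ : Tendsto (fun n => (x (ψ n) : HL)) atTop (𝓝 φ) := by
    have h2 : Tendsto (fun n => toL a (G (ψ n)) - (x (ψ n) : HL)) atTop (𝓝 0) :=
      squeeze_zero_norm (fun n => hG1 (ψ n)) hz
    have h3 := hφ.sub h2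
    rw [sub_zero] at h3
    refine h3.congr fun n => ?_
    abel
  have hφE : φ ∈ D.E ha := ⟨fun n => G (ψ n), hφ,
    squeeze_zero (fun n => (D.form ha).bn_nonneg _) (fun n => hG2 (ψ n)) hz⟩
  refine ⟨⟨φ, hφE⟩, ?_, ψ, hψ, ?_⟩
  · rw [mem_closedBall_zero_iff]
    exact le_of_tendsto hxφ.norm (Eventually.of_forall fun n => hx1 (ψ n))
  · rw [tendsto_subtype_rng]
    exact hxφ

lemma bn_adjust (ha : 0 < a) {G : ℕ → Ts a} {c : ℕ → ℂ} (η : Ts a)
    (h1 : Tendsto (fun n => (D.form ha).bn (G n)) atTop (𝓝 0)) (h2 : Tendsto c atTop (𝓝 0)) :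
    Tendsto (fun n => (D.form ha).bn (G n - c n • η)) atTop (𝓝 0) := by
  have h3 := h1.add (h2.norm.mul_const ((D.form ha).bn η))
  rw [norm_zero, zero_mul, add_zero] at h3
  refine squeeze_zero (fun n => (D.form ha).bn_nonneg _) (fun n => ?_) h3
  rw [← (D.form ha).bn_smul]
  exact (D.form ha).bn_sub _ _

/-- division at a zero off the critical line -/
lemma E_div (ha : 0 < a) {φ : HL} (hφ : φ ∈ D.E ha) {w : ℂ} (hw : w.re ≠ 0) (h0 : ev a w φ = 0) :
    ∃ ψ ∈ D.E ha, ∀ z, ev a z φ = (z - w) * ev a z ψ := by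
  obtain ⟨G, hG1, hG2⟩ := hφ
  obtain ⟨c, η, hc, hz, hl⟩ := adjust ha hG1 h0
  obtain ⟨K, ψ, hK, hψ, hev⟩ := div_seq ha hl hz
  refine ⟨ψ, ⟨K, hψ, ?_⟩, hev⟩
  have h1 := bn_adjust (D := D) ha η hG2 hc
  have h2 := h1.const_mul (|w.re|⁻¹)
  rw [mul_zero] at h2
  refine squeeze_zero (fun n => (D.form ha).bn_nonneg _) (fun n => ?_) h2
  have h3 := bn_inv (D := D) ha w (K n)
  rw [hK n] at h3
  rw [← div_eq_inv_mul, le_div_iff₀ (abs_pos.mpr hw), mul_comm]
  exact h3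

/-- division at a zero of order two on the critical line -/
lemma E_div2 (ha : 0 < a) {φ : HL} (hφ : φ ∈ D.E ha) {w : ℂ} (hw : w.re = 0) (h0 : ev a w φ = 0) :
    ∃ ψ : HL, (∀ z, ev a z φ = (z - w) * ev a z ψ) ∧ (ev a w ψ = 0 → ψ ∈ D.E ha) := by
  obtain ⟨G, hG1, hG2⟩ := hφ
  obtain ⟨c, η, hc, hz, hl⟩ := adjust ha hG1 h0
  obtain ⟨K, ψ, hK, hψ, hev⟩ := div_seq ha hl hz
  refine ⟨ψ, hev, fun h1 => ?_⟩
  obtain ⟨d, θ, hd, hz', hl'⟩ := adjust ha hψ h1
  obtain ⟨L, χ, hL, hχ, _⟩ := div_seq ha hl' hz'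
  refine ⟨fun n => K n - d n • θ, hl', ?_⟩
  have hb1 := bn_adjust (D := D) ha η hG2 hc
  have hb2 := bn_adjust (D := D) ha (Ao a w θ) hb1 hd
  obtain ⟨C, hC, hCb⟩ := bn_h1 (D := D) ha w
  have hwc : -conj w = w := by
    apply Complex.ext
    · simp [hw]
    · simp
  have hAo : ∀ n, Ao a w (K n - d n • θ) = (G n - c n • η) - d n • Ao a w θ := by
    intro n
    rw [← hK n]
    apply Subtype.ext
    funext t
    have hx := (Ts.tf (K n).2).hasDerivAt t
    have hy := ((Ts.tf θ.2).hasDerivAt t).const_mul (d n)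
    have hd : deriv (fun t => (K n : ℝ → ℂ) t - d n * (θ : ℝ → ℂ) t) t =
        deriv (K n) t - d n * deriv θ t := (hx.sub hy).deriv
    show -(deriv (fun t => (K n : ℝ → ℂ) t - d n * (θ : ℝ → ℂ) t) t +
        w * ((K n : ℝ → ℂ) t - d n * (θ : ℝ → ℂ) t)) =
      -(deriv (K n) t + w * (K n : ℝ → ℂ) t) - d n * -(deriv θ t + w * (θ : ℝ → ℂ) t)
    rw [hd]
    ring
  have hmain : ∀ n, (D.form ha).bn (K n - d n • θ) ^ 2 ≤
      (C * ‖toL a (K n - d n • θ)‖) * (D.form ha).bn ((G n - c n • η) - d n • Ao a w θ) := by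
    intro n
    rw [(D.form ha).bn_sq, ← hL n]
    have e1 : (D.form ha).B (Ao a w (L n)) (Ao a w (L n)) =
        -(D.form ha).B (L n) (Ao a w (K n - d n • θ)) := by
      rw [form_adj (D := D), hwc, hL n]
    rw [e1]
    refine (Complex.re_le_norm _).trans ?_
    rw [norm_neg, hAo]
    refine ((D.form ha).norm_le _ _).trans ?_
    exact mul_le_mul_of_nonneg_right (hCb (L n)) ((D.form ha).bn_nonneg _)
  have h3 : Tendsto (fun n => (C * ‖toL a (K n - d n • θ)‖) *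
      (D.form ha).bn ((G n - c n • η) - d n • Ao a w θ)) atTop (𝓝 0) := by
    have := (hl'.norm.const_mul C).mul hb2
    rwa [mul_zero] at this
  have h4 : Tendsto (fun n => (D.form ha).bn (K n - d n • θ) ^ 2) atTop (𝓝 0) :=
    squeeze_zero (fun n => sq_nonneg _) hmain h3
  have h5 := h4.sqrt
  rw [Real.sqrt_zero] at h5
  refine h5.congr fun n => ?_
  rw [Real.sqrt_sq ((D.form ha).bn_nonneg _)]

end Pool.Agent.Helper61.GA
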