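import Pool.Agent.Helper61.GA.Tz
import Pool.Agent.Helper61.GA.Gd

set_option autoImplicit false

/-!
# The main theorem with the sum of squares
-/

namespace Pool.Agent.Helper61.GA

open Complex Filter Topology Set MeasureTheory
open Pool.Agent.Helper61.W Pool.Agent.Helper61.W.GS
open scoped ComplexConjugate ContDiff Polynomial

/-- the structure of the form and of its ground states -/
theorem structure_fun (D : Dat) {a : ℝ} (ha : 0 < a) : ∃ (ψ : ℝ → ℂ) (d : ℕ) (ν : ℂ → ℝ), D.IsG a ψ ∧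
    (∀ z : ℂ, W.LT ψ z = 0 → z.re = 0 ∧ deriv (W.LT ψ) z ≠ 0 ∧ 0 < ν z) ∧
    (∀ g ∈ Ts a, HasSum (fun z : {z : ℂ // W.LT ψ z = 0} => ν z * ‖W.LT g z‖ ^ 2)
      ((D.Wf g g).re - D.low a * ∫ x, ‖g x‖ ^ 2)) ∧
    ∀ F : ℂ → ℂ, (∃ φ : ℝ → ℂ, D.IsG a φ ∧ W.LT φ = F) ↔
      ∃ p : ℂ[X], p ≠ 0 ∧ p.natDegree < d ∧ ∀ z, F z = p.eval z * W.LT ψ z := by
  have hLT : ∀ {φ : ℝ → ℂ} (h : D.IsG a φ) (z : ℂ), W.LT φ z = ev a z (h.1.toLp φ) := by
    intro φ h z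
    exact (ev_of h.1 h.2.1 z).symm
  obtain ⟨ψ, hψ, h0, hd, hr, hs1, hs2⟩ := structure_thm (D := D) ha
  obtain ⟨f, hf, hfe⟩ := exists_IsG ha hψ h0
  have hT : ∀ s, W.LT f s = ev a s ψ := hfe
  have hTf : W.LT f = fun z => ev a z ψ := funext hT
  obtain ⟨z0, hz0⟩ : ∃ z0, ev a z0 ψ ≠ 0 := by
    by_contra hcon
    push Not at hcon
    exact h0 (E_zero ha hψ hcon)
  have hgen : Gen D ha ψ := ⟨hr, fun φ hφ => by
    obtain ⟨p, _, hp⟩ := hs2 φ hφ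
    exact ⟨p, hp⟩, ⟨z0, hz0⟩⟩
  obtain ⟨ν, hν, hsum⟩ := trace ha hψ hgen
  refine ⟨f, Module.finrank ℂ (D.E ha), ν, hf, ?_, ?_, ?_⟩
  · intro z hz
    rw [hTf] at hz ⊢
    exact ⟨(hr z hz).1, (hr z hz).2, hν z hz⟩
  · intro g hg
    have h1 := hsum ⟨g, hg⟩ ⟨g, hg⟩
    have h2 := Complex.reCLM.hasSum h1
    rw [hTf]
    have e1 : Complex.reCLM (D.Wf g g - (D.low a : ℂ) * inner ℂ (toL a ⟨g, hg⟩) (toL a ⟨g, hg⟩)) =
        (D.Wf g g).re - D.low a * ∫ x, ‖g x‖ ^ 2 := by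
      have h3 : inner ℂ (toL a ⟨g, hg⟩) (toL a ⟨g, hg⟩) = ((‖toL a ⟨g, hg⟩‖ ^ 2 : ℝ) : ℂ) := by
        rw [inner_self_eq_norm_sq_to_K]
        norm_cast
      rw [h3, ← Complex.ofReal_mul, Complex.reCLM_apply, Complex.sub_re, Complex.ofReal_re, norm_toL]
    simp only at h2
    rw [e1] at h2
    have e2 : ∀ z : {z : ℂ // ev a z ψ = 0}, Complex.reCLM ((ν z : ℂ) * (W.LT g z * conj (W.LT g z))) =
        ν z * ‖W.LT g z‖ ^ 2 := by
      intro z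
      rw [Complex.mul_conj, Complex.normSq_eq_norm_sq, ← Complex.ofReal_mul, Complex.reCLM_apply, Complex.ofReal_re]
    rw [← funext e2]
    exact h2
  · intro F
    constructor
    · rintro ⟨φ, hφ, rfl⟩
      obtain ⟨h1, h2⟩ := hφ.mem ha
      obtain ⟨p, hp1, hp2⟩ := hs2 _ h1
      refine ⟨p, ?_, hp1, fun z => ?_⟩
      · rintro rfl
        apply h2
        apply E_zero ha h1
        intro z
        rw [hp2 z, Polynomial.eval_zero, zero_mul]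
      · rw [hLT hφ, hp2, hT]
    · rintro ⟨p, hp0, hp1, hp2⟩
      obtain ⟨φ, h1, h2⟩ := hs1 p hp1
      have hne : φ ≠ 0 := by
        rintro rfl
        apply hp0
        apply Polynomial.eq_zero_of_infinite_isRoot
        have h3 : {z : ℂ | ev a z ψ ≠ 0} ∈ 𝓝 z0 := (ev_cont ψ).continuousAt.eventually_ne hz0
        refine (infinite_of_mem_nhds _ h3).mono fun z hz => ?_
        have h4 := h2 z
        rw [map_zero] at h4
        exact (mul_eq_zero.mp h4.symm).resolve_right hz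
      obtain ⟨k, hk, hke⟩ := exists_IsG ha h1 hne
      refine ⟨k, hk, funext fun z => ?_⟩
      have e : W.LT k z = ev a z φ := hke z
      rw [e, h2, hp2, hT]

end Pool.Agent.Helper61.GA
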