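import Pool.Agent.Helper61.GA.St

set_option autoImplicit false

/-!
# Ground states under the Riemann hypothesis
-/

namespace Pool.Agent.Helper61.GA

open Complex Filter Topology Set MeasureTheory
open Pool.Agent.Helper61.W Pool.Agent.Helper61.W.GS
open scoped ComplexConjugate ContDiff

variable {D : Dat} {a : ℝ}

/-- the zeros are locally finite -/
lemma gap (s : ℂ) : ∃ δ : ℝ, 0 < δ ∧ ∀ ρ : D.ι, D.z ρ ≠ s → δ ≤ ‖D.z ρ - s‖ := by
  have hs := (D.sum).tendsto_cofinite_zero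
  have h1 : ∀ᶠ ρ in cofinite, D.m ρ / (1 + |(D.z ρ).im|) ^ (2 : ℝ) < 1 / (2 + |s.im|) ^ (2 : ℝ) :=
    hs.eventually_lt_const (by positivity)
  have hF : {ρ : D.ι | ‖D.z ρ - s‖ < 1}.Finite := by
    refine Set.Finite.subset h1 fun ρ hρ => ?_
    simp only [mem_ofPred_eq, mem_compl_iff, not_lt] at hρ ⊢
    have e1 := (Complex.abs_im_le_norm (D.z ρ - s)).trans hρ.le
    rw [Complex.sub_im] at e1
    have e2 : |(D.z ρ).im| ≤ 1 + |s.im| := by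
      have := abs_add_le ((D.z ρ).im - s.im) s.im
      rw [sub_add_cancel] at this
      linarith
    have e3 : (1 + |(D.z ρ).im|) ^ (2 : ℝ) ≤ (2 + |s.im|) ^ (2 : ℝ) :=
      Real.rpow_le_rpow (by positivity) (by linarith) (by norm_num)
    exact div_le_div₀ (by linarith [D.one_le ρ]) (D.one_le ρ) (by positivity) e3
  have hG : (D.z '' ({ρ : D.ι | ‖D.z ρ - s‖ < 1} ∩ {ρ | D.z ρ ≠ s})).Finite := (hF.inter_of_left _).image _
  have hs' : s ∈ (D.z '' ({ρ : D.ι | ‖D.z ρ - s‖ < 1} ∩ {ρ | D.z ρ ≠ s}))ᶜ := by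
    rintro ⟨ρ, ⟨_, h2⟩, h3⟩
    exact h2 h3
  obtain ⟨ε, hε, hball⟩ := Metric.isOpen_iff.mp hG.isClosed.isOpen_compl s hs'
  refine ⟨min ε 1, by positivity, fun ρ hρ => ?_⟩
  by_contra hlt
  push Not at hlt
  have h2 : ‖D.z ρ - s‖ < 1 := hlt.trans_le (min_le_right _ _)
  have h3 : D.z ρ ∈ Metric.ball s ε := by
    rw [Metric.mem_ball, dist_eq_norm]
    exact hlt.trans_le (min_le_left _ _)
  exact hball h3 ⟨ρ, ⟨h2, hρ⟩, rfl⟩

/-- a point of the line away from the zeros -/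
lemma exists_free (D : Dat) : ∃ s : ℂ, s.re = 0 ∧ ∃ δ : ℝ, 0 < δ ∧ ∀ ρ : D.ι, δ ≤ ‖D.z ρ - s‖ := by
  obtain ⟨δ, hδ, hgap⟩ := gap (D := D) 0
  have hn : ‖((δ / 2 : ℝ) : ℂ) * I‖ = δ / 2 := by
    rw [norm_mul, Complex.norm_I, mul_one, Complex.norm_real, Real.norm_of_nonneg (by positivity)]
  refine ⟨((δ / 2 : ℝ) : ℂ) * I, by simp, δ / 2, by positivity, fun ρ => ?_⟩
  by_cases h : D.z ρ = 0
  · rw [h, zero_sub, norm_neg, hn]
  · have h1 := hgap ρ h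
    rw [sub_zero] at h1
    have h2 := norm_sub_norm_le (D.z ρ) (((δ / 2 : ℝ) : ℂ) * I)
    rw [hn] at h2
    linarith

section RH

variable (hR : ∀ ρ : D.ι, (D.z ρ).re = 0)

include hR

lemma rh_conj (ρ : D.ι) : -conj (D.z ρ) = D.z ρ := by
  apply Complex.ext
  · simp [hR ρ]
  · simp

lemma wt_self (g : ℝ → ℂ) (ρ : D.ι) : D.wt g g ρ = ((D.m ρ * ‖LT g (D.z ρ)‖ ^ 2 : ℝ) : ℂ) := by
  unfold Dat.wt
  rw [rh_conj hR, Complex.mul_conj, Complex.normSq_eq_norm_sq]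
  push_cast
  rfl

lemma Wf_self_eq (g : ℝ → ℂ) : D.Wf g g = ((∑' ρ : D.ι, D.m ρ * ‖LT g (D.z ρ)‖ ^ 2 : ℝ) : ℂ) := by
  unfold Dat.Wf
  rw [Complex.ofReal_tsum]
  exact tsum_congr fun ρ => wt_self hR g ρ

lemma Wf_nonneg (g : ℝ → ℂ) : 0 ≤ (D.Wf g g).re := by
  rw [Wf_self_eq hR, Complex.ofReal_re]
  exact tsum_nonneg fun ρ => mul_nonneg (D.m_nonneg ρ) (sq_nonneg _)

lemma low_nonneg (ha : 0 < a) : 0 ≤ D.low a := by
  apply le_csInf (low_nonempty (D := D) ha)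
  rintro r ⟨g, _, _, rfl⟩
  exact Wf_nonneg hR g

lemma wt_Aw {g : ℝ → ℂ} (hg : TF g) {w : ℂ} (hw : w.re = 0) (ρ : D.ι) :
    D.wt g (Aw w g) ρ = -I * ((D.m ρ * ((D.z ρ).im - w.im) * ‖LT g (D.z ρ)‖ ^ 2 : ℝ) : ℂ) := by
  unfold Dat.wt
  rw [rh_conj hR, LT_Aw hg, map_mul]
  have e1 : D.z ρ - w = (((D.z ρ).im - w.im : ℝ) : ℂ) * I := by
    apply Complex.ext
    · simp [hR ρ, hw]
    · simp
  rw [e1, map_mul, Complex.conj_ofReal, Complex.conj_I]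
  have e2 : LT g (D.z ρ) * conj (LT g (D.z ρ)) = ((‖LT g (D.z ρ)‖ ^ 2 : ℝ) : ℂ) := by
    rw [Complex.mul_conj, Complex.normSq_eq_norm_sq]
  push_cast at e2 ⊢
  linear_combination (-I * (D.m ρ : ℂ) * ((D.z ρ).im - w.im : ℂ)) * e2

lemma Wf_Aw {g : ℝ → ℂ} (hg : TF g) {w : ℂ} (hw : w.re = 0) :
    ‖D.Wf g (Aw w g)‖ = |∑' ρ : D.ι, D.m ρ * ((D.z ρ).im - w.im) * ‖LT g (D.z ρ)‖ ^ 2| := by
  have : D.Wf g (Aw w g) = -I * ((∑' ρ : D.ι, D.m ρ * ((D.z ρ).im - w.im) * ‖LT g (D.z ρ)‖ ^ 2 : ℝ) : ℂ) := by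
    unfold Dat.Wf
    rw [Complex.ofReal_tsum, ← tsum_mul_left]
    exact tsum_congr fun ρ => wt_Aw hR hg hw ρ
  rw [this, norm_mul, norm_neg, Complex.norm_I, one_mul, Complex.norm_real, Real.norm_eq_abs]

lemma Wf_Aw2 {g : ℝ → ℂ} (hg : TF g) {w : ℂ} (hw : w.re = 0) :
    (D.Wf (Aw w g) (Aw w g)).re = ∑' ρ : D.ι, D.m ρ * ((D.z ρ).im - w.im) ^ 2 * ‖LT g (D.z ρ)‖ ^ 2 := by
  rw [Wf_self_eq hR, Complex.ofReal_re]
  refine tsum_congr fun ρ => ?_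
  have e1 : D.z ρ - w = (((D.z ρ).im - w.im : ℝ) : ℂ) * I := by
    apply Complex.ext
    · simp [hR ρ, hw]
    · simp
  rw [LT_Aw hg, e1, norm_mul, norm_mul, Complex.norm_I, mul_one, Complex.norm_real, mul_pow, Real.norm_eq_abs,
    sq_abs]
  ring

/-- the lowest eigenvalue tends to zero -/
lemma low_upper : ∃ K : ℝ, ∀ a : ℝ, 0 < a → D.low a ≤ K / a := by
  obtain ⟨η, hη⟩ := exists_eta one_pos 0
  obtain ⟨C, hC, hb⟩ := LT_bound (Ts.tf η.2) 0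
  obtain ⟨s, hs0, δ, hδ, hgap⟩ := exists_free D
  set N : ℝ := ∫ x, ‖(η : ℝ → ℂ) x‖ ^ 2 with hN
  have hNpos : 0 < N := by
    rw [hN, ← norm_toL]
    have : toL 1 η ≠ 0 := by
      intro h
      have h1 := ev_toL η 0
      rw [h, map_zero, hη] at h1
      exact zero_ne_one h1
    have := norm_pos_iff.mpr this
    positivity
  set S : ℝ := ∑' ρ : D.ι, D.m ρ / (1 + |(D.z ρ).im|) ^ (2 : ℝ) with hS
  have hs := D.sum
  set κ : ℝ := (1 + |s.im| + δ) / δ with hκ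
  refine ⟨C ^ 2 * κ ^ 2 * S / N, fun a ha => ?_⟩
  have h1 := low_le (D := D) ha (⟨gs η a s, gs_mem η.2 ha s⟩ : Ts a)
  rw [norm_toL] at h1
  simp only at h1
  rw [norm_gs ha hs0, Wf_self_eq hR, Complex.ofReal_re] at h1
  have h2 : ∀ ρ : D.ι, D.m ρ * ‖LT (gs η a s) (D.z ρ)‖ ^ 2 ≤
      C ^ 2 * κ ^ 2 / a ^ 2 * (D.m ρ / (1 + |(D.z ρ).im|) ^ (2 : ℝ)) := by
    intro ρ
    rw [LT_gs ha]
    set t : ℝ := (D.z ρ).im - s.im with ht
    have hzs : D.z ρ - s = (t : ℂ) * I := by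
      apply Complex.ext
      · simp [hR ρ, hs0]
      · simp [ht]
    have e1 : ((a : ℂ) * (D.z ρ - s)).re = 0 := by
      rw [hzs]
      simp
    have e2 : ((a : ℂ) * (D.z ρ - s)).im = a * t := by
      rw [hzs]
      simp
    have h3 := hb ((a : ℂ) * (D.z ρ - s)) (by rw [e1, abs_zero])
    rw [e2] at h3
    have h4 : δ ≤ |t| := by
      have h5 := hgap ρ
      rw [hzs, norm_mul, Complex.norm_I, mul_one, Complex.norm_real, Real.norm_eq_abs] at h5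
      exact h5
    have h5 : (1 + |(D.z ρ).im|) ^ (2 : ℝ) = (1 + |(D.z ρ).im|) ^ 2 := by norm_cast
    rw [h5]
    have h6 : 1 + |(D.z ρ).im| ≤ κ * |t| := by
      have e3 : |(D.z ρ).im| ≤ |t| + |s.im| := by
        have := abs_add_le ((D.z ρ).im - s.im) s.im
        rwa [sub_add_cancel] at this
      rw [hκ, div_mul_eq_mul_div, le_div_iff₀ hδ]
      nlinarith [abs_nonneg s.im]
    have h7 : (1 + |(D.z ρ).im|) ^ 2 ≤ κ ^ 2 * t ^ 2 := by
      rw [← sq_abs t, ← mul_pow]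
      exact pow_le_pow_left₀ (by positivity) h6 2
    have htp : 0 < t ^ 2 := by
      have : 0 < |t| := hδ.trans_le h4
      have := sq_pos_of_pos this
      rwa [sq_abs] at this
    have h8 : ‖LT η ((a : ℂ) * (D.z ρ - s))‖ ^ 2 ≤ C ^ 2 / (a ^ 2 * t ^ 2) := by
      have hap : 0 < a ^ 2 * t ^ 2 := by positivity
      have h9 : ‖LT η ((a : ℂ) * (D.z ρ - s))‖ ^ 2 ≤ (C / (1 + (a * t) ^ 2) ^ 2) ^ 2 :=
        pow_le_pow_left₀ (norm_nonneg _) h3 2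
      refine h9.trans ?_
      rw [div_pow]
      apply div_le_div_of_nonneg_left (sq_nonneg _) hap
      have h10 : 1 ≤ 1 + (a * t) ^ 2 := by nlinarith [sq_nonneg (a * t)]
      calc a ^ 2 * t ^ 2 ≤ 1 + (a * t) ^ 2 := by nlinarith
        _ ≤ (1 + (a * t) ^ 2) ^ 4 := le_self_pow₀ h10 (by norm_num)
        _ = ((1 + (a * t) ^ 2) ^ 2) ^ 2 := by ring
    have hm := D.m_nonneg ρ
    calc D.m ρ * ‖LT η ((a : ℂ) * (D.z ρ - s))‖ ^ 2 ≤ D.m ρ * (C ^ 2 / (a ^ 2 * t ^ 2)) :=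
          mul_le_mul_of_nonneg_left h8 hm
      _ = C ^ 2 / a ^ 2 * D.m ρ * (1 / t ^ 2) := by field_simp
      _ ≤ C ^ 2 / a ^ 2 * D.m ρ * (κ ^ 2 / (1 + |(D.z ρ).im|) ^ 2) := by
          apply mul_le_mul_of_nonneg_left _ (by positivity)
          rw [div_le_div_iff₀ htp (by positivity)]
          linarith
      _ = _ := by ring
  have hsum : Summable fun ρ : D.ι => D.m ρ * ‖LT (gs η a s) (D.z ρ)‖ ^ 2 :=
    Summable.of_nonneg_of_le (fun ρ => mul_nonneg (D.m_nonneg ρ) (sq_nonneg _)) h2 (hs.mul_left _)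
  have h3 := hsum.tsum_le_tsum h2 (hs.mul_left _)
  rw [tsum_mul_left] at h3
  have h4 := h1.trans h3
  rw [div_div, le_div_iff₀ (by positivity)]
  have h5 : D.low a * (N * a) = (D.low a * (a⁻¹ * N)) * a ^ 2 := by
    field_simp
  rw [h5]
  calc (D.low a * (a⁻¹ * N)) * a ^ 2 ≤ (C ^ 2 * κ ^ 2 / a ^ 2 * S) * a ^ 2 :=
        mul_le_mul_of_nonneg_right h4 (sq_nonneg a)
    _ = _ := by field_simp

lemma low_tendsto : Tendsto D.low atTop (𝓝 0) := by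
  obtain ⟨K, hK⟩ := low_upper hR
  have h1 : Tendsto (fun a : ℝ => K / a) atTop (𝓝 0) := tendsto_const_nhds.div_atTop tendsto_id
  refine squeeze_zero' ?_ ?_ h1
  · filter_upwards [eventually_gt_atTop 0] with a ha
    exact low_nonneg hR ha
  · filter_upwards [eventually_gt_atTop 0] with a ha
    exact hK a ha

/-- the two sums for rescaled test functions -/
lemma no_ineq (ρ0 : D.ι) {δ ε : ℝ} (hδ : 0 < δ) (hε : 2 * δ < ε)
    (h : ∀ b : ℝ, 0 < b → ∀ g ∈ Ts b, ‖D.Wf g (Aw (D.z ρ0 + δ * I) g)‖ ≤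
      2 / ε * (D.Wf (Aw (D.z ρ0 + δ * I) g) (Aw (D.z ρ0 + δ * I) g)).re) : False := by
  classical
  obtain ⟨η, hη⟩ := exists_eta one_pos 0
  obtain ⟨C, hC, hb⟩ := LT_bound (Ts.tf η.2) 0
  set w0 : ℂ := D.z ρ0 + δ * I with hw0
  have hw0re : w0.re = 0 := by simp [hw0, hR ρ0]
  have hw0im : w0.im = (D.z ρ0).im + δ := by simp [hw0]
  set t0 : ℝ := (D.z ρ0).im with ht0
  -- the density
  set Dq : ℕ → D.ι → ℝ := fun n ρ => ‖LT η (((n : ℝ) + 1 : ℝ) * (D.z ρ - D.z ρ0))‖ ^ 2 with hD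
  have hD0 : ∀ n, Dq n ρ0 = 1 := by
    intro n
    simp only [hD, sub_self, mul_zero, hη]
    norm_num
  have hdiff : ∀ ρ : D.ι, D.z ρ - D.z ρ0 = (((D.z ρ).im - t0 : ℝ) : ℂ) * I := by
    intro ρ
    apply Complex.ext
    · simp [hR ρ, hR ρ0]
    · simp [ht0]
  have hDb : ∀ n ρ, Dq n ρ ≤ C ^ 2 / (1 + (((n : ℝ) + 1) * ((D.z ρ).im - t0)) ^ 2) ^ 2 := by
    intro n ρ
    have e1 : (((n : ℝ) + 1 : ℝ) * (D.z ρ - D.z ρ0) : ℂ).re = 0 := by
      rw [hdiff]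
      simp
    have e2 : (((n : ℝ) + 1 : ℝ) * (D.z ρ - D.z ρ0) : ℂ).im = ((n : ℝ) + 1) * ((D.z ρ).im - t0) := by
      rw [hdiff]
      simp
    have h3 := hb _ (by rw [e1, abs_zero])
    rw [e2] at h3
    have h4 := pow_le_pow_left₀ (norm_nonneg _) h3 2
    refine h4.trans ?_
    rw [div_pow]
    apply div_le_div_of_nonneg_left (sq_nonneg _) (by positivity)
    have h5 : 1 ≤ (1 + (((n : ℝ) + 1) * ((D.z ρ).im - t0)) ^ 2) ^ 2 :=
      one_le_pow₀ (by nlinarith [sq_nonneg (((n : ℝ) + 1) * ((D.z ρ).im - t0))])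
    exact le_self_pow₀ h5 (by norm_num)
  -- domination
  set K : ℝ := (3 + 2 * δ ^ 2) * C ^ 2 * (2 * (1 + |t0|) ^ 2) with hK
  have hK0 : 0 ≤ K := by positivity
  have hdom : ∀ n ρ, Dq n ρ * (3 + 2 * δ ^ 2) * (1 + ((D.z ρ).im - t0) ^ 2) ≤ K / (1 + |(D.z ρ).im|) ^ (2 : ℝ) := by
    intro n ρ
    set u : ℝ := (D.z ρ).im - t0 with hu
    have h5 : (1 + |(D.z ρ).im|) ^ (2 : ℝ) = (1 + |(D.z ρ).im|) ^ 2 := by norm_cast
    rw [h5, le_div_iff₀ (by positivity)]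
    have h6 : 1 + |(D.z ρ).im| ≤ (1 + |t0|) * (1 + |u|) := by
      have : |(D.z ρ).im| ≤ |u| + |t0| := by
        have := abs_add_le u t0
        rwa [hu, sub_add_cancel] at this
      nlinarith [abs_nonneg u, abs_nonneg t0]
    have h7 : (1 + |(D.z ρ).im|) ^ 2 ≤ (2 * (1 + |t0|) ^ 2) * (1 + u ^ 2) := by
      have h8 := pow_le_pow_left₀ (by positivity) h6 2
      rw [mul_pow] at h8
      have h9 : (1 + |u|) ^ 2 ≤ 2 * (1 + u ^ 2) := by
        have := sq_nonneg (1 - |u|)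
        have h10 := sq_abs u
        nlinarith
      calc (1 + |(D.z ρ).im|) ^ 2 ≤ (1 + |t0|) ^ 2 * (1 + |u|) ^ 2 := h8
        _ ≤ (1 + |t0|) ^ 2 * (2 * (1 + u ^ 2)) := mul_le_mul_of_nonneg_left h9 (sq_nonneg _)
        _ = _ := by ring
    have h8 : Dq n ρ * (1 + u ^ 2) ^ 2 ≤ C ^ 2 := by
      have h9 := hDb n ρ
      rw [le_div_iff₀ (by positivity)] at h9
      refine le_trans (mul_le_mul_of_nonneg_left ?_ (sq_nonneg _)) h9
      apply pow_le_pow_left₀ (by positivity)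
      have hn1 : (1 : ℝ) ≤ (n : ℝ) + 1 := by linarith [(Nat.cast_nonneg n : (0 : ℝ) ≤ n)]
      have h10 : u ^ 2 ≤ (((n : ℝ) + 1) * u) ^ 2 := by
        rw [mul_pow]
        have : 1 ≤ ((n : ℝ) + 1) ^ 2 := one_le_pow₀ hn1
        nlinarith [sq_nonneg u]
      linarith
    have hDn : 0 ≤ Dq n ρ := sq_nonneg _
    calc Dq n ρ * (3 + 2 * δ ^ 2) * (1 + u ^ 2) * (1 + |(D.z ρ).im|) ^ 2
        ≤ Dq n ρ * (3 + 2 * δ ^ 2) * (1 + u ^ 2) * ((2 * (1 + |t0|) ^ 2) * (1 + u ^ 2)) :=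
          mul_le_mul_of_nonneg_left h7 (by positivity)
      _ = (Dq n ρ * (1 + u ^ 2) ^ 2) * ((3 + 2 * δ ^ 2) * (2 * (1 + |t0|) ^ 2)) := by ring
      _ ≤ C ^ 2 * ((3 + 2 * δ ^ 2) * (2 * (1 + |t0|) ^ 2)) := mul_le_mul_of_nonneg_right h8 (by positivity)
      _ = K := by rw [hK]; ring
  -- pointwise limits
  have hlim : ∀ ρ, ρ ≠ ρ0 → Tendsto (fun n => Dq n ρ) atTop (𝓝 0) := by
    intro ρ hρ
    have hu : (D.z ρ).im - t0 ≠ 0 := by
      intro h0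
      apply hρ
      have h1 := hdiff ρ
      rw [h0, Complex.ofReal_zero, zero_mul] at h1
      have h2 := sub_eq_zero.mp h1
      unfold Dat.z at h2
      exact D.inj h2
    set u : ℝ := (D.z ρ).im - t0 with hudef
    have h2 : Tendsto (fun n : ℕ => C ^ 2 / (((n : ℝ) + 1) * u ^ 2)) atTop (𝓝 0) := by
      apply tendsto_const_nhds.div_atTop
      apply Tendsto.atTop_mul_const (by positivity)
      exact tendsto_natCast_atTop_atTop.atTop_add tendsto_const_nhds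
    refine squeeze_zero (fun n => sq_nonneg _) (fun n => (hDb n ρ).trans ?_) h2
    apply div_le_div_of_nonneg_left (sq_nonneg _) (by positivity)
    have hn1 : (1 : ℝ) ≤ (n : ℝ) + 1 := by linarith [(Nat.cast_nonneg n : (0 : ℝ) ≤ n)]
    have h3 : 1 ≤ 1 + (((n : ℝ) + 1) * u) ^ 2 := by nlinarith [sq_nonneg (((n : ℝ) + 1) * u)]
    calc ((n : ℝ) + 1) * u ^ 2 ≤ ((n : ℝ) + 1) ^ 2 * u ^ 2 :=
          mul_le_mul_of_nonneg_right (by nlinarith) (sq_nonneg u)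
      _ ≤ 1 + (((n : ℝ) + 1) * u) ^ 2 := by rw [mul_pow]; linarith
      _ ≤ (1 + (((n : ℝ) + 1) * u) ^ 2) ^ 2 := le_self_pow₀ h3 (by norm_num)
  have hs := (D.sum).mul_left K
  have hbound : ∀ (c : ℝ → ℝ), (∀ x, |c x| ≤ (3 + 2 * δ ^ 2) * (1 + (x - t0) ^ 2)) →
      Tendsto (fun n => ∑' ρ : D.ι, D.m ρ * c (D.z ρ).im * Dq n ρ) atTop
        (𝓝 (∑' ρ : D.ι, if ρ = ρ0 then D.m ρ0 * c t0 else 0)) := by
    intro c hc
    apply tendsto_tsum_of_dominated_convergence hs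
    · intro ρ
      by_cases hρ : ρ = ρ0
      · rw [if_pos hρ, hρ]
        simp only [hD0, mul_one]
        exact tendsto_const_nhds
      · rw [if_neg hρ]
        have := (hlim ρ hρ).const_mul (D.m ρ * c (D.z ρ).im)
        rwa [mul_zero] at this
    · refine Eventually.of_forall fun n ρ => ?_
      have hm := D.m_nonneg ρ
      have hDn : 0 ≤ Dq n ρ := sq_nonneg _
      rw [Real.norm_eq_abs, abs_mul, abs_mul, abs_of_nonneg hm, abs_of_nonneg hDn]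
      calc D.m ρ * |c (D.z ρ).im| * Dq n ρ ≤ D.m ρ * ((3 + 2 * δ ^ 2) * (1 + ((D.z ρ).im - t0) ^ 2)) * Dq n ρ :=
            mul_le_mul_of_nonneg_right (mul_le_mul_of_nonneg_left (hc _) hm) hDn
        _ = D.m ρ * (Dq n ρ * (3 + 2 * δ ^ 2) * (1 + ((D.z ρ).im - t0) ^ 2)) := by ring
        _ ≤ D.m ρ * (K / (1 + |(D.z ρ).im|) ^ (2 : ℝ)) := mul_le_mul_of_nonneg_left (hdom n ρ) hm
        _ = _ := by ring
  have hA := hbound (fun x => x - w0.im) (fun x => by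
    rw [hw0im]
    have h1 : |x - (t0 + δ)| ≤ |x - t0| + δ := by
      have := abs_sub (x - t0) δ
      rw [abs_of_pos hδ] at this
      have e : x - (t0 + δ) = x - t0 - δ := by ring
      rwa [e]
    have h2 := sq_abs (x - t0)
    have h3 := sq_nonneg (|x - t0| - 1)
    have h4 := sq_nonneg (δ - 1)
    nlinarith [sq_nonneg (x - t0), sq_nonneg δ])
  have hB := hbound (fun x => (x - w0.im) ^ 2) (fun x => by
    rw [hw0im, abs_of_nonneg (sq_nonneg _)]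
    nlinarith [sq_nonneg (x - t0), sq_nonneg δ, sq_nonneg (x - t0 + δ), sq_nonneg ((x - t0) * δ)])
  rw [tsum_ite_eq] at hA hB
  have hineq : ∀ n : ℕ, |∑' ρ : D.ι, D.m ρ * ((D.z ρ).im - w0.im) * Dq n ρ| ≤
      2 / ε * ∑' ρ : D.ι, D.m ρ * ((D.z ρ).im - w0.im) ^ 2 * Dq n ρ := by
    intro n
    have hn : (0 : ℝ) < (n : ℝ) + 1 := by positivity
    have hmem := gs_mem η.2 hn (D.z ρ0)
    have h1 := h _ hn _ hmem
    rw [Wf_Aw hR (Ts.tf hmem) hw0re, Wf_Aw2 hR (Ts.tf hmem) hw0re] at h1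
    simp only [LT_gs hn] at h1
    exact h1
  have hfin := le_of_tendsto_of_tendsto' hA.abs (hB.const_mul (2 / ε)) hineq
  have hm := D.one_le ρ0
  rw [hw0im] at hfin
  have e1 : t0 - (t0 + δ) = -δ := by ring
  rw [e1, abs_mul, abs_neg, abs_of_pos hδ, abs_of_nonneg (by linarith : 0 ≤ D.m ρ0), neg_sq] at hfin
  have hεp : 0 < ε := by linarith
  rw [div_mul_eq_mul_div, le_div_iff₀ hεp] at hfin
  nlinarith [mul_pos (by linarith : 0 < D.m ρ0) hδ]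

/-- under the Riemann hypothesis the zeros of ground states approach every zero of zeta -/
theorem zeros_near (ρ0 : D.ι) {ε0 : ℝ} (hε0 : 0 < ε0) : ∃ A : ℝ, ∀ a : ℝ, A ≤ a → ∀ (ha : 0 < a), ∀ φ ∈ D.E ha,
    ∃ z : ℂ, ‖z - D.z ρ0‖ < ε0 ∧ ev a z φ = 0 := by
  by_contra hcon
  push Not at hcon
  refine no_ineq hR ρ0 (δ := ε0 / 8) (ε := ε0 / 2) (by positivity) (by linarith) fun b hb g hg => ?_
  set w0 : ℂ := D.z ρ0 + (ε0 / 8 : ℝ) * I with hw0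
  have hw0re : w0.re = 0 := by simp [hw0, hR ρ0]
  set f : ℝ → ℂ := Aw w0 g with hf
  have hfm : f ∈ Ts b := Aw_mem w0 hg
  by_contra hlt
  push Not at hlt
  set M : ℝ := ‖toL b ⟨f, hfm⟩‖ * ‖toL b ⟨g, hg⟩‖ with hM
  have hM0 : 0 ≤ M := by positivity
  have hl : Tendsto (fun a => D.low a * M) atTop (𝓝 0) := by
    have := (low_tendsto hR).mul_const M
    rwa [zero_mul] at this
  have hev := hl.eventually_lt_const (sub_pos.mpr hlt)
  obtain ⟨A0, hA0⟩ := eventually_atTop.mp hev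
  obtain ⟨a, haA, ha, φ, hφ, hnz⟩ := hcon (max A0 b)
  have hab : b ≤ a := (le_max_right _ _).trans haA
  have h1 := hA0 a ((le_max_left _ _).trans haA)
  set gA : Ts a := ⟨g, Ts.mono hab hg⟩ with hgA
  have hball : ∀ z ∈ Metric.closedBall w0 (ε0 / 2), ev a z φ ≠ 0 := by
    intro z hz
    apply hnz
    rw [Metric.mem_closedBall, dist_eq_norm] at hz
    have e1 : z - D.z ρ0 = (z - w0) + (ε0 / 8 : ℝ) * I := by
      rw [hw0]
      ring
    rw [e1]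
    refine (norm_add_le _ _).trans_lt ?_
    rw [norm_mul, Complex.norm_I, mul_one, Complex.norm_real, Real.norm_of_nonneg (by positivity)]
    linarith
  have h2 := star ha hφ hw0re (by positivity : 0 < ε0 / 2) hball gA
  have hfA : (Ao a w0 gA : ℝ → ℂ) = f := rfl
  have hlow := low_nonneg hR ha
  rw [form_self (D := D)] at h2
  have e1 : (D.form ha).B gA (Ao a w0 gA) = D.Wf g f - (D.low a : ℂ) * inner ℂ (toL a (Ao a w0 gA)) (toL a gA) := rfl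
  have e2 : ‖toL a (Ao a w0 gA)‖ = ‖toL b ⟨f, hfm⟩‖ := by
    have h3 : ‖toL a (Ao a w0 gA)‖ ^ 2 = ‖toL b ⟨f, hfm⟩‖ ^ 2 := by
      rw [norm_toL, norm_toL]
      rfl
    exact (pow_left_inj₀ (norm_nonneg _) (norm_nonneg _) (by norm_num)).mp h3
  have e3 : ‖toL a gA‖ = ‖toL b ⟨g, hg⟩‖ := by
    have h3 : ‖toL a gA‖ ^ 2 = ‖toL b ⟨g, hg⟩‖ ^ 2 := by
      rw [norm_toL, norm_toL]
    exact (pow_left_inj₀ (norm_nonneg _) (norm_nonneg _) (by norm_num)).mp h3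
  have h3 : ‖D.Wf g f‖ ≤ ‖(D.form ha).B gA (Ao a w0 gA)‖ + D.low a * M := by
    rw [e1]
    have h4 : ‖D.Wf g f‖ ≤ ‖D.Wf g f - (D.low a : ℂ) * inner ℂ (toL a (Ao a w0 gA)) (toL a gA)‖ +
        ‖(D.low a : ℂ) * inner ℂ (toL a (Ao a w0 gA)) (toL a gA)‖ := by
      have := norm_add_le (D.Wf g f - (D.low a : ℂ) * inner ℂ (toL a (Ao a w0 gA)) (toL a gA))
        ((D.low a : ℂ) * inner ℂ (toL a (Ao a w0 gA)) (toL a gA))
      rwa [sub_add_cancel] at this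
    have h5 : ‖(D.low a : ℂ) * inner ℂ (toL a (Ao a w0 gA)) (toL a gA)‖ ≤ D.low a * M := by
      rw [norm_mul, Complex.norm_real, Real.norm_of_nonneg hlow, hM, ← e2, ← e3]
      exact mul_le_mul_of_nonneg_left (norm_inner_le_norm _ _) hlow
    linarith
  have h4 : ((D.Wf (Ao a w0 gA) (Ao a w0 gA)).re - D.low a * ‖toL a (Ao a w0 gA)‖ ^ 2) ≤ (D.Wf f f).re := by
    rw [hfA]
    have := mul_nonneg hlow (sq_nonneg ‖toL a (Ao a w0 gA)‖)
    linarith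
  have h5 : 2 / (ε0 / 2) * ((D.Wf (Ao a w0 gA) (Ao a w0 gA)).re - D.low a * ‖toL a (Ao a w0 gA)‖ ^ 2) ≤
      2 / (ε0 / 2) * (D.Wf f f).re := mul_le_mul_of_nonneg_left h4 (by positivity)
  linarith

end RH

end Pool.Agent.Helper61.GA
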