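import Pool.Agent.Helper61.GA.Gr

set_option autoImplicit false

/-!
# A ground state all of whose zeros are simple and lie on the critical line
-/

namespace Pool.Agent.Helper61.GA

open Complex Filter Topology Set MeasureTheory
open Pool.Agent.Helper61.W Pool.Agent.Helper61.W.GS
open scoped ComplexConjugate ContDiff

variable {D : Dat} {a : ℝ}

lemma ladder (ha : 0 < a) : ∀ (k : ℕ) (ψ φ : HL), ψ ∈ D.E ha → φ ∈ D.E ha →
    (∀ z, ev a z φ = (z - 1) ^ k * ev a z ψ) → ∀ j ≤ k, ∃ χ ∈ D.E ha, ∀ z, ev a z χ = (z - 1) ^ j * ev a z ψ := by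
  intro k
  induction k with
  | zero =>
    intro ψ φ hψ hφ h j hj
    obtain rfl : j = 0 := by omega
    exact ⟨φ, hφ, h⟩
  | succ k ih =>
    intro ψ φ hψ hφ h j hj
    rcases Nat.lt_or_ge j (k + 1) with hlt | hge
    · have h0 : ev a 1 φ = 0 := by rw [h 1]; simp
      obtain ⟨χ, hχ, h1⟩ := E_div (D := D) ha hφ (w := 1) (by simp) h0
      refine ih ψ χ hψ hχ ?_ j (by omega)
      apply cancel_factor (w := 1) (ev_cont χ) (pow_cont 1 k ψ)
      intro z
      rw [← h1, h z]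
      ring
    · obtain rfl : j = k + 1 := by omega
      exact ⟨φ, hφ, h⟩

/-- multiplication by powers of `z - 1` is limited by the dimension -/
lemma ladder_card (ha : 0 < a) {k : ℕ} {ψ φ : HL} (hψ : ψ ∈ D.E ha) (h0 : ψ ≠ 0) (hφ : φ ∈ D.E ha)
    (h : ∀ z, ev a z φ = (z - 1) ^ k * ev a z ψ) : k + 1 ≤ Module.finrank ℂ (D.E ha) := by
  have h1 : ∀ j : Fin (k + 1), ∃ χ : D.E ha, ∀ z, ev a z (χ : HL) = (z - 1) ^ (j : ℕ) * ev a z ψ := by
    intro j
    obtain ⟨χ, hχ, h2⟩ := ladder (D := D) ha k ψ φ hψ hφ h j (by omega)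
    exact ⟨⟨χ, hχ⟩, h2⟩
  choose χ hχ using h1
  have hli : LinearIndependent ℂ χ := by
    rw [Fintype.linearIndependent_iff]
    intro g hg i
    set p : Polynomial ℂ := ∑ j : Fin (k + 1), Polynomial.C (g j) * Polynomial.X ^ (j : ℕ) with hp
    -- a point where the transform does not vanish
    obtain ⟨z0, hz0⟩ : ∃ z0, ev a z0 ψ ≠ 0 := by
      by_contra hcon
      push Not at hcon
      exact h0 (E_zero (D := D) ha hψ hcon)
    have hroot : ∀ z, ev a z ψ ≠ 0 → p.eval (z - 1) = 0 := by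
      intro z hz
      have h2 : ev a z ((∑ j, g j • χ j : D.E ha) : HL) = 0 := by rw [hg]; simp
      have h3 : ev a z ((∑ j, g j • χ j : D.E ha) : HL) = p.eval (z - 1) * ev a z ψ := by
        rw [hp, Polynomial.eval_finsetSum, Finset.sum_mul, AddSubmonoidClass.coe_finsetSum, map_sum]
        refine Finset.sum_congr rfl fun j _ => ?_
        rw [Submodule.coe_smul, map_smul, hχ]
        simp [mul_assoc]
      rw [h2] at h3
      exact (mul_eq_zero.mp h3.symm).resolve_right hz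
    have hinf : {x : ℂ | p.IsRoot x}.Infinite := by
      have h2 : {z : ℂ | ev a z ψ ≠ 0} ∈ 𝓝 z0 := (ev_cont ψ).continuousAt.eventually_ne hz0
      have h3 := infinite_of_mem_nhds z0 h2
      have h4 : ((fun z : ℂ => z - 1) '' {z : ℂ | ev a z ψ ≠ 0}).Infinite :=
        h3.image (fun x _ y _ hxy => by simpa using hxy)
      refine h4.mono ?_
      rintro _ ⟨z, hz, rfl⟩
      exact hroot z hz
    have hp0 : p = 0 := Polynomial.eq_zero_of_infinite_isRoot p hinf
    have h5 : p.coeff i = g i := by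
      rw [hp, Polynomial.finsetSum_coeff]
      rw [Finset.sum_eq_single i]
      · simp
      · intro j _ hj
        rw [Polynomial.coeff_C_mul_X_pow, if_neg]
        intro heq
        exact hj (Fin.ext heq.symm)
      · simp
    rw [← h5, hp0, Polynomial.coeff_zero]
  have h6 := hli.fintype_card_le_finrank
  simpa using h6

/-- a ground state that can be multiplied by a maximal power of `z - 1` has simple zeros on the line -/
theorem real_rooted_of_max (ha : 0 < a) {k : ℕ} (hk1 : ¬ ∃ ψ ∈ D.E ha, ψ ≠ 0 ∧ ∃ φ ∈ D.E ha,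
    ∀ z, ev a z φ = (z - 1) ^ (k + 1) * ev a z ψ) {ψ φ : HL} (hψ : ψ ∈ D.E ha) (h0 : ψ ≠ 0) (hφ : φ ∈ D.E ha)
    (h : ∀ z, ev a z φ = (z - 1) ^ k * ev a z ψ) :
    ∀ z, ev a z ψ = 0 → z.re = 0 ∧ deriv (fun z => ev a z ψ) z ≠ 0 := by
  have key : ∀ z1 : ℂ, ∀ ψ1 ∈ D.E ha, (∀ z, ev a z ψ = (z - z1) * ev a z ψ1) → ∀ φ1 ∈ D.E ha,
      (∀ z, ev a z φ = (z - z1) * ev a z φ1) → False := by
    intro z1 ψ1 hψ1 h1 φ1 hφ1 h2
    apply hk1
    have h3 : ∀ z, ev a z φ1 = (z - 1) ^ k * ev a z ψ1 := by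
      apply cancel_factor (w := z1) (ev_cont φ1) (pow_cont 1 k ψ1)
      intro z
      rw [← h2, h z, h1 z]
      ring
    refine ⟨ψ1, hψ1, ?_, φ + (z1 - 1) • φ1, (D.E ha).add_mem hφ ((D.E ha).smul_mem _ hφ1), fun z => ?_⟩
    · rintro rfl
      apply h0
      apply E_zero (D := D) ha hψ
      intro z
      rw [h1 z]
      simp
    · rw [map_add, map_smul, h2 z, h3 z, smul_eq_mul]
      ring
  intro z1 hz1
  have hφ1 : ev a z1 φ = 0 := by rw [h z1, hz1, mul_zero]
  by_cases hre : z1.re = 0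
  · refine ⟨hre, fun hd => ?_⟩
    obtain ⟨ψ1, h1, h1'⟩ := E_div2 (D := D) ha hψ hre hz1
    obtain ⟨φ1, h2, h2'⟩ := E_div2 (D := D) ha hφ hre hφ1
    have hd1 : ev a z1 ψ1 = 0 := by
      have e : (fun z => ev a z ψ) = fun z => (z - z1) * ev a z ψ1 := funext h1
      rw [e] at hd
      have h3 : HasDerivAt (fun z => (z - z1) * ev a z ψ1)
          (1 * ev a z1 ψ1 + (z1 - z1) * deriv (fun z => ev a z ψ1) z1) z1 :=
        ((hasDerivAt_id z1).sub_const z1).mul ((ev_differentiable ψ1) z1).hasDerivAt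
      rw [h3.deriv] at hd
      simpa using hd
    have hψ1 := h1' hd1
    have h3 : ∀ z, ev a z φ1 = (z - 1) ^ k * ev a z ψ1 := by
      apply cancel_factor (w := z1) (ev_cont φ1) (pow_cont 1 k ψ1)
      intro z
      rw [← h2, h z, h1 z]
      ring
    have hφ1' := h2' (by rw [h3 z1, hd1, mul_zero])
    exact key z1 ψ1 hψ1 h1 φ1 hφ1' h2
  · exfalso
    obtain ⟨ψ1, hψ1, h1⟩ := E_div (D := D) ha hψ hre hz1
    obtain ⟨φ1, hφ1', h2⟩ := E_div (D := D) ha hφ hre hφ1
    exact key z1 ψ1 hψ1 h1 φ1 hφ1' h2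

end Pool.Agent.Helper61.GA
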