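import Pool.Agent.Helper61.GA.Mt
import Pool.Agent.Helper61.GS.RHz

set_option autoImplicit false

/-!
# The configuration of the nontrivial zeros of zeta
-/

namespace Pool.Agent.Helper61.GA

open Complex Filter Topology Set MeasureTheory
open Pool.Agent.Helper61.W Pool.Agent.Helper61.W.GS
open Pool.Agent.V11271.LI (Zr mm cfg_zeta zz mm_one_le reflE zz_refl mm_refl)

/-- the nontrivial zeros of zeta -/
noncomputable def zetaDat : Dat where
  ι := Zr
  z := zz
  m := mm
  β := 1
  one_le := mm_one_le
  re_le := zz_re_le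
  sum := cfg_zeta.sum 2 (by norm_num)
  refl := reflE
  z_refl := zz_refl
  m_refl := mm_refl
  inj := fun x y h => Subtype.ext (by
    have : (x : ℂ) - 1 / 2 = (y : ℂ) - 1 / 2 := h
    linear_combination this)
  approx := fun a ha => GS.approx ha

lemma zeta_Wf (f g : ℝ → ℂ) : zetaDat.Wf f g = GS.Wf f g := rfl

end Pool.Agent.Helper61.GA
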